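import Pool.Agent.Work.MP_36677d_fa.FA2

/-! # Chains of path components, part 1: Baire category, nonrecurrence (helper57) -/

set_option autoImplicit false

open Set Filter Topology

namespace Pool.FA57

open Pool.TL94 Pool.RY

variable {M : Type} [MetricSpace M]

/-- the set meets only finitely many path components -/
def Fpc (C : Set M) : Prop := (ZerothHomotopy.mk '' C).Finite

theorem Fpc.mono {C D : Set M} (h : Fpc D) (hCD : C ⊆ D) : Fpc C := h.subset (image_mono hCD)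

theorem Fpc.union {C D : Set M} (h : Fpc C) (h' : Fpc D) : Fpc (C ∪ D) := by
  rw [Fpc, image_union]
  exact Set.Finite.union h h'

theorem mk_eq_iff {x y : M} : ZerothHomotopy.mk x = ZerothHomotopy.mk y ↔ Joined x y :=
  ⟨fun h => Quotient.exact h, fun h => Quotient.sound h⟩

theorem fpc_seg [CompactSpace M] (hHU : HU M) {a b : M} (hab : Joined a b) : Fpc (seg a b) := by
  refine (finite_singleton (ZerothHomotopy.mk a)).subset ?_
  rintro _ ⟨x, hx, rfl⟩
  exact (mk_eq_iff.2 (joined_of_mem_seg hHU hab hx)).symm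

/-- the hypothesis on increasing sequences of irreducible continua -/
def FinCl (M : Type) [MetricSpace M] : Prop :=
  ∀ (p : M) (I : ℕ → Set M) (q : ℕ → M), (∀ n, IsClosed (I n)) → (∀ n, IsPreconnected (I n)) →
    (∀ n, I n ⊆ I (n + 1)) → (∀ n, p ∈ I n ∧ q n ∈ I n) →
    (∀ n, ∀ K ⊆ I n, IsClosed K → IsPreconnected K → p ∈ K → q n ∈ K → K = I n) →
    (∀ n, (ZerothHomotopy.mk '' I n).Finite) → ∀ y ∈ closure (⋃ n, I n),
    ∃ C, IsClosed C ∧ IsPreconnected C ∧ p ∈ C ∧ y ∈ C ∧ (ZerothHomotopy.mk '' C).Finite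

variable [CompactSpace M]

theorem FinCl.use (hF : FinCl M) {p : M} {q : ℕ → M} (hc : ∀ n, Cont (seg p (q n)))
    (hm : ∀ n, seg p (q n) ⊆ seg p (q (n + 1))) (hf : ∀ n, Fpc (seg p (q n))) {y : M}
    (hy : y ∈ closure (⋃ n, seg p (q n))) : ∃ C, Cont C ∧ p ∈ C ∧ y ∈ C ∧ Fpc C := by
  obtain ⟨C, h1, h2, h3, h4, h5⟩ := hF p (fun n => seg p (q n)) q
    (fun n => (hc n).cpt.isClosed) (fun n => (hc n).con) hm
    (fun n => ⟨left_mem _ _, right_mem _ _⟩)
    (fun n K hK h1 h2 h3 h4 => Subset.antisymm hK (seg_sub ⟨h1.isCompact, h2⟩ h3 h4)) hf y hy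
  exact ⟨C, ⟨h1.isCompact, h2⟩, h3, h4, h5⟩

/-- the Baire category lemma -/
theorem baire_seg (hHU : HU M) {T : Set M} (hT : Cont T) (hne : T.Nonempty)
    (hC : ∀ D : Set M, Cont D → D ⊆ T → ∀ V : Set M, IsOpen V → (V ∩ T).Nonempty →
      V ∩ T ⊆ D → T ⊆ D) (b : ℕ → M) (hb : ∀ j, b j ∈ T) :
    ∃ y ∈ T, ∀ j, T ⊆ seg (b j) y := by
  by_contra hcon
  push Not at hcon
  obtain ⟨U, hUo, hUb⟩ := exists_basis_seq (M := M)
  have hTc : IsClosed T := hT.cpt.isClosed
  have : CompactSpace T := isCompact_iff_compactSpace.1 hT.cpt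
  have : Nonempty T := hne.to_subtype
  obtain ⟨F, hF⟩ : ∃ F : ℕ → ℕ → Set M, ∀ i j, F i j =
      closure (connectedComponentIn (T \ U i) (b j)) := ⟨_, fun _ _ => rfl⟩
  have hFsub : ∀ i j, F i j ⊆ T \ U i := by
    intro i j
    rw [hF]
    exact closure_minimal (connectedComponentIn_subset _ _) (hTc.sdiff (hUo i))
  obtain ⟨i, hi⟩ := nonempty_interior_of_iUnion_of_closed
    (f := fun i : {i : ℕ // (U i ∩ T).Nonempty} × ℕ => ((↑) : T → M) ⁻¹' F i.1 i.2)
    (fun i => by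
      rw [hF]
      exact isClosed_closure.preimage continuous_subtype_val) (by
      ext ⟨x, hx⟩
      simp only [mem_iUnion, mem_preimage, mem_univ, iff_true]
      obtain ⟨j, hj⟩ := hcon x hx
      obtain ⟨y, hy, hyx⟩ := not_subset.1 hj
      obtain ⟨K, hK, hbK, hxK, hyK⟩ := not_mem_seg.1 hyx
      have hKT : Cont (K ∩ T) := ⟨hK.cpt.inter_right hTc, hHU K T hK.cpt hK.con hT.cpt hT.con⟩
      obtain ⟨n, hn1, hn2⟩ := hUb y Kᶜ hK.cpt.isClosed.isOpen_compl hyK
      refine ⟨⟨⟨n, y, hn1, hy⟩, j⟩, ?_⟩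
      show x ∈ F n j
      rw [hF]
      apply subset_closure
      refine hKT.con.subset_connectedComponentIn ⟨hbK, hb j⟩ ?_ ⟨hxK, hx⟩
      intro y' hy'
      exact ⟨hy'.2, fun h => hn2 h hy'.1⟩)
  obtain ⟨⟨x, hx⟩, hxi⟩ := hi
  obtain ⟨O, hO1, hO2, hO3⟩ := mem_interior.1 hxi
  obtain ⟨V, hV, rfl⟩ := isOpen_induced_iff.1 hO2
  have hcF : Cont (F i.1 i.2) := by
    rw [hF]
    exact ⟨isClosed_closure.isCompact, isPreconnected_connectedComponentIn.closure⟩
  have h1 := hC (F i.1 i.2) hcF ((hFsub i.1 i.2).trans sdiff_subset) V hV ⟨x, hO3, hx⟩ (by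
    rintro y ⟨hy1, hy2⟩
    exact hO1 (show (⟨y, hy2⟩ : T) ∈ ((↑) : T → M) ⁻¹' V from hy1))
  obtain ⟨y, hy1, hy2⟩ := i.1.2
  exact ((hFsub i.1 i.2) (h1 hy2)).2 hy1

/-- representatives of the path components -/
theorem exists_reps {T : Set M} (hne : T.Nonempty) (hf : Fpc T) :
    ∃ b : ℕ → M, (∀ j, b j ∈ T) ∧ ∀ x ∈ T, ∃ j, Joined (b j) x := by
  have hcnt : (ZerothHomotopy.mk '' T).Countable := hf.countable
  obtain ⟨f, hf⟩ := hcnt.exists_eq_range (hne.image _)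
  have h1 : ∀ j, ∃ x ∈ T, ZerothHomotopy.mk x = f j := by
    intro j
    have : f j ∈ ZerothHomotopy.mk '' T := by rw [hf]; exact mem_range_self j
    exact this
  choose b hb1 hb2 using h1
  refine ⟨b, hb1, fun x hx => ?_⟩
  have : ZerothHomotopy.mk x ∈ range f := by rw [← hf]; exact mem_image_of_mem _ hx
  obtain ⟨j, hj⟩ := this
  exact ⟨j, mk_eq_iff.1 ((hb2 j).trans hj)⟩

variable {p : M} {z : ℕ → M}

/-- the limit set is disjoint from the path component of `p` -/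
theorem Sq.disjF (hHU : HU M) (hF : FinCl M) (h : Sq p z) {q : M}
    (hq : q ∈ Lm z) (hpq : Joined p q) : False := by
  rw [Lm, mem_iInter] at hq
  obtain ⟨N, hNn⟩ := h.late hpq
  have hA : ∀ n m, N ≤ n → z n ∈ Tl z m := by
    intro n m hn
    have h1 : ∀ m, n ≤ m → z n ∈ Tl z m := by
      intro m hm
      rcases h.mono hm (Tl z m ∪ seg p q) ((h.ct hHU m).union (cont_seg hHU hpq)
        ⟨q, hq m, right_mem _ _⟩) (Or.inr (left_mem _ _)) (Or.inl (mem_tl le_rfl)) with h | h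
      · exact h
      · exact absurd h (hNn n hn)
    rcases le_total n m with h2 | h2
    · exact h1 m h2
    · exact h.anti hHU h2 (h1 n le_rfl)
  have hB : ∀ m, Tl z N ⊆ Tl z m := fun m => tl_sub (h.ct hHU m) fun k hk => hA k m hk
  -- continua with nonempty interior
  have hC : ∀ D : Set M, Cont D → D ⊆ Tl z N → ∀ V : Set M, IsOpen V → (V ∩ Tl z N).Nonempty →
      V ∩ Tl z N ⊆ D → Tl z N ⊆ D := by
    intro D hD hDN V hV hVN hVD
    have h1 : ∀ n, N ≤ n → ∃ m, n ≤ m ∧ ∃ d ∈ D, d ∈ seg (z n) (z m) := by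
      intro n hn
      obtain ⟨x, hxV, hxN⟩ := hVN
      obtain ⟨d, hdV, hd⟩ := mem_closure_iff.1 (hB n hxN) V hV hxV
      obtain ⟨⟨m, hm⟩, hdm⟩ := mem_iUnion.1 hd
      exact ⟨m, hm, d, hVD ⟨hdV, h.anti hHU hn (seg_sub_tl hm hdm)⟩, hdm⟩
    obtain ⟨m, hm, d, hdD, hd⟩ := h1 N le_rfl
    have h2 : ∀ k, m ≤ k → z k ∈ D := by
      intro k hk
      obtain ⟨m', hm', d', hd'D, hd'⟩ := h1 k (hm.trans hk)
      have h3 : d ∈ seg p (z k) := by
        have h4 : d ∈ seg p (z m) :=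
          seg_sub (cont_seg hHU (h.j m)) (h.mono hm) (right_mem _ _) hd
        exact seg_trans h4 (h.mono hk)
      have h5 : z k ∈ seg p d' := seg_btw' hHU (h.jj k m') (h.mono hm') hd'
      exact seg_sub hD hdD hd'D (seg_btw hHU (h.j k) h3 h5)
    exact (hB m).trans (tl_sub hD h2)
  -- the tail is not a segment
  obtain ⟨n1, hn1, hne1⟩ : ∃ n1, N ≤ n1 ∧ z n1 ≠ z N := by
    by_contra hcon
    push Not at hcon
    obtain ⟨n, hn⟩ := h.unb (z N) (h.j N)
    rcases le_total n N with h1 | h1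
    · exact hn (h.mono h1)
    · rw [hcon n h1] at hn
      exact hn (right_mem _ _)
  have hD : ∀ b ∈ Tl z N, ∀ x ∈ Tl z N, Joined b x → ∃ y ∈ Tl z N, y ∉ seg b x := by
    intro b hb x hx hbx
    by_contra hcon
    push Not at hcon
    have hxN : b ≠ x := by
      intro h1
      have h2 := hcon (z n1) (mem_tl hn1)
      have h3 := hcon (z N) (mem_tl le_rfl)
      rw [← h1, seg_self] at h2 h3
      exact hne1 (h2.trans h3.symm)
    obtain ⟨γ, hγ⟩ := exists_arcFn hbx hxN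
    have hsegT : seg b x ⊆ Tl z N := seg_sub (h.ct hHU N) hb hx
    have himg : seg b x = γ '' Icc 0 1 := by
      rw [← hγ.seg_eq hHU le_rfl le_rfl zero_le_one, hγ.zero, hγ.one]
    have hclosed : IsClosed (γ '' Icc (1 / 2) 1) :=
      (hγ.cont_image (by norm_num) le_rfl).cpt.isClosed
    have h1 := hC (γ '' Icc 0 (1 / 2)) (hγ.cont_image le_rfl (by norm_num))
      ((image_mono (Icc_subset_Icc le_rfl (by norm_num))).trans (himg ▸ hsegT))
      (γ '' Icc (1 / 2) 1)ᶜ hclosed.isOpen_compl ⟨b, ?_, hb⟩ ?_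
    · obtain ⟨s, hs, hsx⟩ := h1 hx
      have h2 := hγ.inj ⟨hs.1, hs.2.trans (by norm_num)⟩ ⟨zero_le_one, le_rfl⟩
        (hsx.trans hγ.one.symm)
      have := hs.2
      rw [h2] at this
      norm_num at this
    · rintro ⟨s, hs, hsx⟩
      have h2 := hγ.inj ⟨le_trans (by norm_num) hs.1, hs.2⟩ ⟨le_rfl, zero_le_one⟩
        (hsx.trans hγ.zero.symm)
      have := hs.1
      rw [h2] at this
      norm_num at this
    · rintro y ⟨hy1, hy2⟩
      have h2 := hcon y hy2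
      rw [himg] at h2
      obtain ⟨s, hs, rfl⟩ := h2
      rcases le_total s (1 / 2) with h3 | h3
      · exact ⟨s, ⟨hs.1, h3⟩, rfl⟩
      · exact absurd ⟨s, ⟨h3, hs.2⟩, rfl⟩ hy1
  have hTne : (Tl z N).Nonempty := ⟨z N, mem_tl le_rfl⟩
  -- finitely many path components
  have hfin : Fpc (Tl z N) := by
    obtain ⟨y, hy, hyT⟩ := baire_seg hHU (h.ct hHU N) hTne hC (fun _ => z N)
      fun _ => mem_tl le_rfl
    obtain ⟨C, hCc, hC1, hC2, hCf⟩ := hF.use (p := z N) (q := fun n => z (N + n)) (y := y)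
      (fun n => cont_seg hHU (h.jj _ _))
      (fun n => seg_sub (cont_seg hHU (h.jj _ _)) (left_mem _ _)
        (h.btw hHU (by omega) (by omega)))
      (fun n => fpc_seg hHU (h.jj _ _)) (by
        refine closure_mono ?_ hy
        refine iUnion_subset ?_
        rintro ⟨m, hm⟩
        refine Subset.trans ?_ (subset_iUnion _ (m - N))
        show seg (z N) (z m) ⊆ seg (z N) (z (N + (m - N)))
        rw [show N + (m - N) = m by omega])
    exact hCf.mono ((hyT 0).trans (seg_sub hCc hC1 hC2))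
  obtain ⟨b, hbT, hbx⟩ := exists_reps hTne hfin
  obtain ⟨y, hy, hyT⟩ := baire_seg hHU (h.ct hHU N) hTne hC b hbT
  obtain ⟨j, hj⟩ := hbx y hy
  obtain ⟨w, hw, hw'⟩ := hD (b j) (hbT j) y hy hj
  exact hw' (hyT j hw)

end Pool.FA57
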