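import Mathlib

/-! # A combinatorial fixed point lemma (helper57) -/

set_option autoImplicit false

namespace Pool.FB57

open Classical

variable {α : Type*}

/-- a family of nonempty finite sets closed under unions and intersections (if they meet), with the
Helly property for triples, preserved by `σ` -/
structure Sys (R : Finset α → Prop) (σ : α → α) : Prop where
  ne : ∀ B, R B → B.Nonempty
  inter : ∀ B C, R B → R C → (B ∩ C).Nonempty → R (B ∩ C)
  union : ∀ B C, R B → R C → (B ∩ C).Nonempty → R (B ∪ C)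
  helly : ∀ B C D, R B → R C → R D → (B ∩ C).Nonempty → (B ∩ D).Nonempty → (C ∩ D).Nonempty →
    (B ∩ C ∩ D).Nonempty
  map : ∀ B, R B → R (B.image σ)

/-- a minimal invariant member -/
structure MinInv (R : Finset α → Prop) (σ : α → α) (A : Finset α) : Prop where
  rA : R A
  inv : A.image σ = A
  min : ∀ B, R B → B ⊆ A → B.image σ = B → B = A

/-- the maximal proper members -/
def Mx (R : Finset α → Prop) (A B : Finset α) : Prop :=
  R B ∧ B ⊂ A ∧ ∀ C, R C → C ⊂ A → B ⊆ C → C = B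

variable {R : Finset α → Prop} {σ : α → α} {A : Finset α}

theorem MinInv.inj (h : MinInv R σ A) : Set.InjOn σ A :=
  Finset.card_image_iff.1 (by rw [h.inv])

theorem exists_mx {B : Finset α} (hB : R B) (hBA : B ⊂ A) : ∃ C, Mx R A C ∧ B ⊆ C := by
  obtain ⟨C, hC, hmax⟩ := Finset.exists_max_image
    (A.powerset.filter fun C => R C ∧ C ⊂ A ∧ B ⊆ C) Finset.card
    ⟨B, Finset.mem_filter.2 ⟨Finset.mem_powerset.2 hBA.subset, hB, hBA, subset_rfl⟩⟩
  obtain ⟨-, h1, h2, h3⟩ := Finset.mem_filter.1 hC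
  refine ⟨C, ⟨h1, h2, fun D hD hDA hCD => ?_⟩, h3⟩
  have h4 := hmax D (Finset.mem_filter.2 ⟨Finset.mem_powerset.2 hDA.subset, hD, hDA,
    h3.trans hCD⟩)
  exact (Finset.eq_of_subset_of_card_le hCD h4).symm

theorem image_ssub (hS : Sys R σ) (h : MinInv R σ A) {B : Finset α} (hB : R B ∧ B ⊂ A) :
    R (B.image σ) ∧ B.image σ ⊂ A := by
  refine ⟨hS.map B hB.1, ?_⟩
  have h1 : B.image σ ⊆ A := by
    rw [← h.inv]
    exact Finset.image_subset_image hB.2.subset
  refine Finset.ssubset_iff_subset_ne.2 ⟨h1, fun h2 => ?_⟩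
  have h3 : (B.image σ).card = A.card := by rw [h2]
  have h4 := Finset.card_image_le (s := B) (f := σ)
  have h5 := Finset.card_lt_card hB.2
  omega

theorem sub_of_image (h : MinInv R σ A) {B C : Finset α} (hB : B ⊆ A) (hC : C ⊆ A)
    (hBC : B.image σ ⊆ C.image σ) : B ⊆ C := by
  intro x hx
  obtain ⟨y, hy, hyx⟩ := Finset.mem_image.1 (hBC (Finset.mem_image_of_mem σ hx))
  rw [← h.inj (hC hy) (hB hx) hyx]
  exact hy

theorem exists_pre (hS : Sys R σ) (h : MinInv R σ A) {B : Finset α} (hB : R B ∧ B ⊂ A) :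
    ∃ C, (R C ∧ C ⊂ A) ∧ C.image σ = B := by
  have key := Finset.surjOn_of_injOn_of_card_le (s := A.powerset.filter fun C => R C ∧ C ⊂ A)
    (t := A.powerset.filter fun C => R C ∧ C ⊂ A) (Finset.image σ) (by
      intro C hC
      have h1 := Finset.mem_filter.1 (Finset.mem_coe.1 hC)
      have h2 := image_ssub hS h h1.2
      exact Finset.mem_coe.2 (Finset.mem_filter.2 ⟨Finset.mem_powerset.2 h2.2.subset, h2⟩)) (by
      intro C hC D hD hCD
      have h1 := Finset.mem_filter.1 (Finset.mem_coe.1 hC)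
      have h2 := Finset.mem_filter.1 (Finset.mem_coe.1 hD)
      exact Finset.Subset.antisymm
        (sub_of_image h h1.2.2.subset h2.2.2.subset (subset_of_eq hCD))
        (sub_of_image h h2.2.2.subset h1.2.2.subset (subset_of_eq hCD.symm))) le_rfl
  obtain ⟨C, hC, hCB⟩ := key (Finset.mem_coe.2 (Finset.mem_filter.2
    ⟨Finset.mem_powerset.2 hB.2.subset, hB⟩))
  exact ⟨C, (Finset.mem_filter.1 (Finset.mem_coe.1 hC)).2, hCB⟩

theorem mx_map (hS : Sys R σ) (h : MinInv R σ A) {B : Finset α} (hB : Mx R A B) :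
    Mx R A (B.image σ) := by
  obtain ⟨h1, h2⟩ := image_ssub hS h ⟨hB.1, hB.2.1⟩
  refine ⟨h1, h2, fun C hC hCA hBC => ?_⟩
  obtain ⟨D, hD, hDC⟩ := exists_pre hS h ⟨hC, hCA⟩
  rw [← hDC] at hBC ⊢
  rw [hB.2.2 D hD.1 hD.2 (sub_of_image h hB.2.1.subset hD.2.subset hBC)]

theorem mx_pre (hS : Sys R σ) (h : MinInv R σ A) {B : Finset α} (hB : Mx R A B) :
    ∃ C, Mx R A C ∧ C.image σ = B := by
  obtain ⟨C, hC, hCB⟩ := exists_pre hS h ⟨hB.1, hB.2.1⟩
  refine ⟨C, ⟨hC.1, hC.2, fun D hD hDA hCD => ?_⟩, hCB⟩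
  obtain ⟨h1, h2⟩ := image_ssub hS h ⟨hD, hDA⟩
  have h3 := hB.2.2 _ h1 h2 (by rw [← hCB]; exact Finset.image_subset_image hCD)
  refine Finset.Subset.antisymm (sub_of_image h hDA.subset hC.2.subset ?_) hCD
  rw [h3, hCB]

theorem helly_fin (hS : Sys R σ) (F : Finset (Finset α)) : (∀ B ∈ F, R B) →
    (∀ B ∈ F, ∀ C ∈ F, (B ∩ C).Nonempty) → ∀ C, R C → (∀ B ∈ F, (C ∩ B).Nonempty) →
    ∃ I, R I ∧ ∀ x, x ∈ I ↔ x ∈ C ∧ ∀ B ∈ F, x ∈ B := by
  induction F using Finset.induction_on with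
  | empty => exact fun _ _ C hC _ => ⟨C, hC, fun x => by simp⟩
  | insert B F hB ih =>
    intro h1 h2 C hC h3
    have hCB := h3 B (Finset.mem_insert_self _ _)
    obtain ⟨I, hI, hI'⟩ := ih (fun D hD => h1 D (Finset.mem_insert_of_mem hD))
      (fun D hD E hE => h2 D (Finset.mem_insert_of_mem hD) E (Finset.mem_insert_of_mem hE))
      (C ∩ B) (hS.inter C B hC (h1 B (Finset.mem_insert_self _ _)) hCB) (fun D hD =>
        hS.helly C B D hC (h1 B (Finset.mem_insert_self _ _)) (h1 D (Finset.mem_insert_of_mem hD))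
          hCB (h3 D (Finset.mem_insert_of_mem hD))
          (h2 B (Finset.mem_insert_self _ _) D (Finset.mem_insert_of_mem hD)))
    refine ⟨I, hI, fun x => ?_⟩
    rw [hI', Finset.mem_inter, Finset.forall_mem_insert]
    tauto

theorem mx_disj (hS : Sys R σ) (h : MinInv R σ A) {B₁ B₂ : Finset α} (h1 : Mx R A B₁)
    (h2 : Mx R A B₂) (hne : B₁ ≠ B₂) (hI : (B₁ ∩ B₂).Nonempty) : False := by
  have hU : ∀ B C, Mx R A B → Mx R A C → B ≠ C → (B ∩ C).Nonempty → B ∪ C = A := by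
    intro B C hB hC hne hI
    by_contra hcon
    have h3 : B ∪ C ⊂ A := Finset.ssubset_iff_subset_ne.2
      ⟨Finset.union_subset hB.2.1.subset hC.2.1.subset, hcon⟩
    have h4 := hS.union B C hB.1 hC.1 hI
    exact hne ((hB.2.2 _ h4 h3 Finset.subset_union_left).symm.trans
      (hC.2.2 _ h4 h3 Finset.subset_union_right))
  have hF : ∀ B C D, Mx R A B → Mx R A C → Mx R A D → B ∪ C = A → (B ∩ C).Nonempty →
      (B ∩ D).Nonempty := by
    intro B C D hB hC hD hBC hI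
    by_contra hcon
    have h3 : D ⊆ C := by
      intro x hx
      have h4 : x ∈ B ∪ C := by rw [hBC]; exact hD.2.1.subset hx
      rcases Finset.mem_union.1 h4 with h5 | h5
      · exact absurd ⟨x, Finset.mem_inter.2 ⟨h5, hx⟩⟩ hcon
      · exact h5
    rw [hD.2.2 C hC.1 hC.2.1 h3] at hI
    exact hcon hI
  have hall : ∀ D E, Mx R A D → Mx R A E → (D ∩ E).Nonempty := by
    intro D E hD hE
    by_cases hD1 : D = B₁
    · rw [hD1]
      exact hF B₁ B₂ E h1 h2 hE (hU _ _ h1 h2 hne hI) hI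
    · have h3 : (D ∩ B₁).Nonempty := by
        rw [Finset.inter_comm]
        exact hF B₁ B₂ D h1 h2 hD (hU _ _ h1 h2 hne hI) hI
      exact hF D B₁ E hD h1 hE (hU _ _ hD h1 hD1 h3) h3
  obtain ⟨I, hI1, hI2⟩ := helly_fin hS (A.powerset.filter (Mx R A))
    (fun B hB => (Finset.mem_filter.1 hB).2.1)
    (fun B hB C hC => hall B C (Finset.mem_filter.1 hB).2 (Finset.mem_filter.1 hC).2) B₁ h1.1
    (fun B hB => hall B₁ B h1 (Finset.mem_filter.1 hB).2)
  have hmem : ∀ B, Mx R A B → B ∈ A.powerset.filter (Mx R A) := fun B hB =>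
    Finset.mem_filter.2 ⟨Finset.mem_powerset.2 hB.2.1.subset, hB⟩
  have hIB : I ⊆ B₁ := fun x hx => ((hI2 x).1 hx).1
  have hIA : I ⊆ A := hIB.trans h1.2.1.subset
  have h3 : I.image σ ⊆ I := by
    intro y hy
    obtain ⟨x, hx, rfl⟩ := Finset.mem_image.1 hy
    have h4 : ∀ B, Mx R A B → σ x ∈ B := by
      intro B hB
      obtain ⟨C, hC, hCB⟩ := mx_pre hS h hB
      rw [← hCB]
      exact Finset.mem_image_of_mem _ (((hI2 x).1 hx).2 C (hmem C hC))
    exact (hI2 _).2 ⟨h4 _ h1, fun B hB => h4 B (Finset.mem_filter.1 hB).2⟩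
  have h4 : I.image σ = I := by
    refine Finset.eq_of_subset_of_card_le h3 ?_
    rw [Finset.card_image_of_injOn (h.inj.mono hIA)]
  have h5 := h.min I hI1 hIA h4
  rw [h5] at hIB
  exact h1.2.1.not_subset hIB

theorem two_proper (hS : Sys R σ) (h : MinInv R σ A) {B C : Finset α} (hB : R B) (hC : R C)
    (hBA : B ⊂ A) (hCA : C ⊂ A) (hBC : B ∪ C = A) (hI : (B ∩ C).Nonempty) : False := by
  obtain ⟨B', hB', hBB'⟩ := exists_mx hB hBA
  obtain ⟨C', hC', hCC'⟩ := exists_mx hC hCA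
  refine mx_disj hS h hB' hC' ?_ (hI.mono (Finset.inter_subset_inter hBB' hCC'))
  rintro rfl
  apply hB'.2.1.not_subset
  rw [← hBC]
  exact Finset.union_subset hBB' hCC'

theorem meets_mx (hS : Sys R σ) (h : MinInv R σ A) {B W : Finset α} (hB : Mx R A B) (hW : R W)
    (hWA : W ⊆ A) (hI : (W ∩ B).Nonempty) (hWB : ¬ W ⊆ B) : W = A := by
  by_contra hne
  obtain ⟨C, hC, hWC⟩ := exists_mx hW (Finset.ssubset_iff_subset_ne.2 ⟨hWA, hne⟩)
  refine mx_disj hS h hC hB ?_ (hI.mono (Finset.inter_subset_inter hWC subset_rfl))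
  rintro rfl
  exact hWB hWC

theorem swap (hS : Sys R σ) (h : MinInv R σ A) {B : Finset α} (hB : Mx R A B) {Q : α}
    (hQA : Q ∈ A) (hQB : Q ∉ B) (hA : ∀ x ∈ A, x ≠ Q → x ∈ B) :
    ∃ Q₁, B = {Q₁} ∧ σ Q₁ = Q ∧ σ Q = Q₁ := by
  have h1 := mx_map hS h hB
  have h2 : B.image σ ≠ B := by
    intro h3
    have h4 := h.min B hB.1 hB.2.1.subset h3
    exact hB.2.1.ne h4
  have h3 : B.image σ = {Q} := by
    have h4 : B.image σ ⊆ {Q} := by
      intro x hx
      rw [Finset.mem_singleton]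
      by_contra hxQ
      exact mx_disj hS h h1 hB h2 ⟨x, Finset.mem_inter.2 ⟨hx, hA x (h1.2.1.subset hx) hxQ⟩⟩
    exact (Finset.Nonempty.subset_singleton_iff (hS.ne _ h1.1)).1 h4
  have h4 : B.card = 1 := by
    rw [← Finset.card_image_of_injOn (h.inj.mono hB.2.1.subset), h3, Finset.card_singleton]
  obtain ⟨Q₁, hQ₁⟩ := Finset.card_eq_one.1 h4
  have h5 : σ Q₁ = Q := by
    rw [hQ₁, Finset.image_singleton] at h3
    exact Finset.singleton_inj.1 h3
  refine ⟨Q₁, hQ₁, h5, ?_⟩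
  have h6 : σ Q ∈ A := by
    have := Finset.mem_image_of_mem σ hQA
    rwa [h.inv] at this
  have h7 : σ Q ≠ Q := by
    intro h8
    have hQ₁A : Q₁ ∈ A := hB.2.1.subset (by rw [hQ₁]; exact Finset.mem_singleton_self _)
    have h9 := h.inj hQA hQ₁A (h8.trans h5.symm)
    apply hQB
    rw [h9, hQ₁]
    exact Finset.mem_singleton_self _
  have h8 := hA _ h6 h7
  rw [hQ₁] at h8
  exact Finset.mem_singleton.1 h8

end Pool.FB57
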