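import Pool.Agent.Work.MP_36677d_fb.FB1
import Pool.Agent.Work.MP_36677d_fb.FB2

/-! # Chains of path components, part 2: a fixed path component (helper57) -/

set_option autoImplicit false

open Set Filter Topology

namespace Pool.FA57

open Pool.TL94 Pool.RY

variable {M : Type} [MetricSpace M]

/-! ## Decompositions -/

theorem half_cont {K D E t t' : Set M} (hK : Cont K) (hD : Cont D) (hDK : D ⊆ K)
    (hDne : D.Nonempty) (hE : E = closure (K \ D)) (hEK : E ⊆ K) (ht : IsClosed t)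
    (ht' : IsClosed t') (hsub : E ⊆ t ∪ t') (h2 : (E ∩ t').Nonempty)
    (hemp : ¬ (E ∩ (t ∩ t')).Nonempty) :
    Cont (D ∪ (E ∩ t)) ∧ ¬ K ⊆ D ∪ (E ∩ t) := by
  have hEc : IsClosed E := by rw [hE]; exact isClosed_closure
  have hKE : K ⊆ D ∪ E := by
    intro x hx
    by_cases hxD : x ∈ D
    · exact Or.inl hxD
    · right
      rw [hE]
      exact subset_closure ⟨hx, hxD⟩
  obtain ⟨d, hd⟩ := hDne
  refine ⟨⟨hD.cpt.union (hK.cpt.of_isClosed_subset (hEc.inter ht)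
    (inter_subset_left.trans hEK)), ?_⟩, ?_⟩
  · have claim : ∀ s s' : Set M, IsClosed s → IsClosed s' → D ∪ (E ∩ t) ⊆ s ∪ s' →
        ((D ∪ (E ∩ t)) ∩ s').Nonempty → ¬ ((D ∪ (E ∩ t)) ∩ (s ∩ s')).Nonempty → d ∈ s →
        False := by
      intro s s' hs hs' hC h3 h4 hds
      have hDs' : ∀ x ∈ D, x ∉ s' := by
        intro x hx hxs
        obtain ⟨w, hw1, hw2⟩ := isPreconnected_closed_iff.1 hD.con s s' hs hs'
          (subset_union_left.trans hC) ⟨d, hd, hds⟩ ⟨x, hx, hxs⟩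
        exact h4 ⟨w, Or.inl hw1, hw2⟩
      obtain ⟨x, hx, hxs⟩ := h3
      have hxE : x ∈ E ∩ t := by
        rcases hx with h | h
        · exact absurd hxs (hDs' x h)
        · exact h
      obtain ⟨w, -, hw1, hw2⟩ := isPreconnected_closed_iff.1 hK.con
        (D ∪ ((E ∩ t) ∩ s) ∪ (E ∩ t')) ((E ∩ t) ∩ s')
        ((hD.cpt.isClosed.union ((hEc.inter ht).inter hs)).union (hEc.inter ht'))
        ((hEc.inter ht).inter hs') (by
          intro y hy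
          rcases hKE hy with h | h
          · exact Or.inl (Or.inl (Or.inl h))
          · rcases hsub h with h5 | h5
            · rcases hC (Or.inr ⟨h, h5⟩) with h6 | h6
              · exact Or.inl (Or.inl (Or.inr ⟨⟨h, h5⟩, h6⟩))
              · exact Or.inr ⟨⟨h, h5⟩, h6⟩
            · exact Or.inl (Or.inr ⟨h, h5⟩)) ⟨d, hDK hd, Or.inl (Or.inl hd)⟩
        ⟨x, hEK hxE.1, hxE, hxs⟩
      rcases hw1 with (h | h) | h
      · exact hDs' w h hw2.2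
      · exact h4 ⟨w, Or.inr hw2.1, h.2, hw2.2⟩
      · exact hemp ⟨w, h.1, hw2.1.2, h.2⟩
    rw [isPreconnected_closed_iff]
    intro s s' hs hs' hC h3 h4
    by_contra hcon
    rcases hC (Or.inl hd) with h5 | h5
    · exact claim s s' hs hs' hC h4 hcon h5
    · refine claim s' s hs' hs (by rw [union_comm s' s]; exact hC) h3 ?_ h5
      rw [inter_comm s' s]
      exact hcon
  · intro hKC
    obtain ⟨e, heE, het'⟩ := h2
    have het : e ∉ t := fun h => hemp ⟨e, heE, h, het'⟩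
    rw [hE] at heE
    obtain ⟨x, hxt, hxK, hxD⟩ := mem_closure_iff.1 heE _ ht.isOpen_compl het
    rcases hKC hxK with h | h
    · exact hxD h
    · exact hxt h.2

/-- a continuum with a proper subcontinuum with interior points is the union of two proper
subcontinua -/
theorem split_cont {K D V : Set M} (hK : Cont K) (hD : Cont D) (hDK : D ⊆ K) (hKD : ¬ K ⊆ D)
    (hV : IsOpen V) (hVK : (V ∩ K).Nonempty) (hVD : V ∩ K ⊆ D) :
    ∃ C₁ C₂, Cont C₁ ∧ Cont C₂ ∧ C₁ ⊆ K ∧ C₂ ⊆ K ∧ ¬ K ⊆ C₁ ∧ ¬ K ⊆ C₂ ∧ K ⊆ C₁ ∪ C₂ := by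
  obtain ⟨E, hE⟩ : ∃ E, E = closure (K \ D) := ⟨_, rfl⟩
  have hEK : E ⊆ K := by rw [hE]; exact closure_minimal sdiff_subset hK.cpt.isClosed
  obtain ⟨v, hvV, hvK⟩ := hVK
  have hDne : D.Nonempty := ⟨v, hVD ⟨hvV, hvK⟩⟩
  have hvE : v ∉ E := by
    intro h
    rw [hE] at h
    obtain ⟨x, hxV, hxK, hxD⟩ := mem_closure_iff.1 h V hV hvV
    exact hxD (hVD ⟨hxV, hxK⟩)
  have hEc : IsClosed E := by rw [hE]; exact isClosed_closure
  have hKE : K ⊆ D ∪ E := by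
    intro x hx
    by_cases hxD : x ∈ D
    · exact Or.inl hxD
    · right
      rw [hE]
      exact subset_closure ⟨hx, hxD⟩
  by_cases hEp : IsPreconnected E
  · exact ⟨D, E, hD, ⟨hK.cpt.of_isClosed_subset hEc hEK, hEp⟩, hDK, hEK, hKD,
      fun h => hvE (h hvK), hKE⟩
  · rw [isPreconnected_closed_iff] at hEp
    push Not at hEp
    obtain ⟨t, t', ht, ht', hsub, h1, h2, hemp⟩ := hEp
    have hemp' : ¬ (E ∩ (t ∩ t')).Nonempty := by
      rw [hemp]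
      exact Set.not_nonempty_empty
    obtain ⟨h3, h4⟩ := half_cont hK hD hDK hDne hE hEK ht ht' hsub h2 hemp'
    obtain ⟨h5, h6⟩ := half_cont hK hD hDK hDne hE hEK ht' ht (by
      rw [union_comm t' t]
      exact hsub) h1 (by
      rw [inter_comm t' t]
      exact hemp')
    refine ⟨_, _, h3, h5, union_subset hDK (inter_subset_left.trans hEK),
      union_subset hDK (inter_subset_left.trans hEK), h4, h6, ?_⟩
    intro x hx
    rcases hKE hx with h | h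
    · exact Or.inl (Or.inl h)
    · rcases hsub h with h7 | h7
      · exact Or.inl (Or.inr ⟨h, h7⟩)
      · exact Or.inr (Or.inr ⟨h, h7⟩)

theorem exists_split [CompactSpace M] (hHU : HU M) {K : Set M} (hK : Cont K) (hf : Fpc K)
    {x₁ x₂ : M} (h1 : x₁ ∈ K) (h2 : x₂ ∈ K) (h12 : ¬ Joined x₁ x₂) :
    ∃ C₁ C₂, Cont C₁ ∧ Cont C₂ ∧ C₁ ⊆ K ∧ C₂ ⊆ K ∧ ¬ K ⊆ C₁ ∧ ¬ K ⊆ C₂ ∧ K ⊆ C₁ ∪ C₂ := by
  by_contra hcon
  obtain ⟨b, hb, hb'⟩ := exists_reps ⟨x₁, h1⟩ hf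
  obtain ⟨y, hy, hyK⟩ := baire_seg hHU hK ⟨x₁, h1⟩ (by
    intro D hD hDK V hV hVK hVD
    by_contra hKD
    exact hcon (split_cont hK hD hDK hKD hV hVK hVD)) b hb
  obtain ⟨j, hj⟩ := hb' y hy
  have h3 := joined_of_mem_seg hHU hj (hyK j h1)
  have h4 := joined_of_mem_seg hHU hj (hyK j h2)
  exact h12 (h3.symm.trans h4)

/-- the Brouwer reduction -/
theorem brouwer [CompactSpace M] {P : Set M → Prop} {K₀ : Set M} (h0 : Cont K₀ ∧ P K₀)
    (hne : ∀ K, P K → K.Nonempty)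
    (hno : ∀ K, Cont K → P K → ∃ K', Cont K' ∧ P K' ∧ K' ⊆ K ∧ ¬ K ⊆ K') :
    ∃ K : ℕ → Set M, (∀ n, Cont (K n) ∧ P (K n)) ∧ (∀ n, K (n + 1) ⊆ K n) ∧
      Cont (⋂ n, K n) ∧ (⋂ n, K n).Nonempty ∧ ¬ P (⋂ n, K n) := by
  classical
  obtain ⟨U, hUo, hUb⟩ := exists_basis_seq (M := M)
  have hstep : ∀ (n : ℕ) (K : {K : Set M // Cont K ∧ P K}), ∃ K' : {K : Set M // Cont K ∧ P K},
      K'.1 ⊆ K.1 ∧ ((∃ C, Cont C ∧ P C ∧ C ⊆ K.1 ∧ Disjoint C (U n)) →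
        Disjoint K'.1 (U n)) := by
    intro n K
    by_cases h : ∃ C, Cont C ∧ P C ∧ C ⊆ K.1 ∧ Disjoint C (U n)
    · obtain ⟨C, h1, h2, h3, h4⟩ := h
      exact ⟨⟨C, h1, h2⟩, h3, fun _ => h4⟩
    · exact ⟨K, Subset.rfl, fun h' => absurd h' h⟩
  choose st hst1 hst2 using hstep
  obtain ⟨K, hK0, hKs⟩ : ∃ K : ℕ → {K : Set M // Cont K ∧ P K}, K 0 = ⟨K₀, h0⟩ ∧
      ∀ n, K (n + 1) = st n (K n) := ⟨fun n => Nat.rec ⟨K₀, h0⟩ (fun n K => st n K) n, rfl,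
    fun n => rfl⟩
  have hdec : ∀ n, (K (n + 1)).1 ⊆ (K n).1 := fun n => by rw [hKs]; exact hst1 n (K n)
  have hanti : Antitone fun n => (K n).1 := antitone_nat_of_succ_le hdec
  have hdir : Directed (fun a b : Set M => b ⊆ a) fun n => (K n).1 := fun n m =>
    ⟨max n m, hanti (le_max_left _ _), hanti (le_max_right _ _)⟩
  have hcon : Cont (⋂ n, (K n).1) :=
    ⟨(isClosed_iInter fun n => (K n).2.1.cpt.isClosed).isCompact,
      conn_dir (fun n => (K n).1) hdir (fun n => (K n).2.1.cpt) fun n => (K n).2.1.con⟩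
  refine ⟨fun n => (K n).1, fun n => (K n).2, hdec, hcon, ?_, fun hP => ?_⟩
  · exact IsCompact.nonempty_iInter_of_directed_nonempty_isCompact_isClosed
      (fun n => (K n).1) hdir (fun n => hne _ (K n).2.2) (fun n => (K n).2.1.cpt)
      fun n => (K n).2.1.cpt.isClosed
  · obtain ⟨K', hK', hPK', hsub, hns⟩ := hno _ hcon hP
    obtain ⟨w, hw, hwK⟩ := not_subset.1 hns
    obtain ⟨n, hn1, hn2⟩ := hUb w K'ᶜ hK'.cpt.isClosed.isOpen_compl hwK
    have h1 : Disjoint (K (n + 1)).1 (U n) := by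
      rw [hKs]
      refine hst2 n (K n) ⟨K', hK', hPK', hsub.trans (iInter_subset _ n), ?_⟩
      exact Set.disjoint_left.2 fun x hx hxU => hn2 hxU hx
    exact Set.disjoint_left.1 h1 (mem_iInter.1 hw (n + 1)) hn1

/-! ## Realised sets of path components -/

/-- `B` is the set of the path components which meet some continuum (with a given choice `rep` of
points of the path components) -/
def Rz (rep : ZerothHomotopy M → M) (B : Finset (ZerothHomotopy M)) : Prop :=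
  B.Nonempty ∧ ∃ K : Set M, Cont K ∧ (∀ Q ∈ B, rep Q ∈ K) ∧ ∀ x ∈ K, ZerothHomotopy.mk x ∈ B

variable [CompactSpace M] {rep : ZerothHomotopy M → M}

theorem rz_of (hHU : HU M) (hrep : ∀ Q, ZerothHomotopy.mk (rep Q) = Q) {K : Set M} (hK : Cont K)
    (hne : K.Nonempty) {B : Finset (ZerothHomotopy M)}
    (hB : ∀ Q, Q ∈ B ↔ Q ∈ ZerothHomotopy.mk '' K) : Rz rep B := by
  classical
  have hBne : B.Nonempty := by
    obtain ⟨x, hx⟩ := hne
    exact ⟨_, (hB _).2 ⟨x, hx, rfl⟩⟩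
  have key : ∀ B' : Finset (ZerothHomotopy M), B' ⊆ B → ∃ K', Cont K' ∧ K ⊆ K' ∧
      (∀ Q ∈ B', rep Q ∈ K') ∧ ∀ x ∈ K', ZerothHomotopy.mk x ∈ B := by
    intro B'
    induction B' using Finset.induction_on with
    | empty => exact fun _ => ⟨K, hK, Subset.rfl, by simp, fun x hx => (hB _).2 ⟨x, hx, rfl⟩⟩
    | insert Q B' hQ ih =>
      intro hsub
      obtain ⟨K', h1, h2, h3, h4⟩ := ih ((Finset.subset_insert _ _).trans hsub)
      have hQB := hsub (Finset.mem_insert_self _ _)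
      obtain ⟨x, hx, hxQ⟩ := (hB Q).1 hQB
      have hj : Joined x (rep Q) := mk_eq_iff.1 (hxQ.trans (hrep Q).symm)
      refine ⟨K' ∪ seg x (rep Q), h1.union (cont_seg hHU hj) ⟨x, h2 hx, left_mem _ _⟩,
        h2.trans subset_union_left, ?_, ?_⟩
      · intro Q' hQ'
        rcases Finset.mem_insert.1 hQ' with rfl | h
        · exact Or.inr (right_mem _ _)
        · exact Or.inl (h3 Q' h)
      · rintro y (hy | hy)
        · exact h4 y hy
        · rw [← mk_eq_iff.2 (joined_of_mem_seg hHU hj hy), hxQ]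
          exact hQB
  obtain ⟨K', h1, -, h3, h4⟩ := key B subset_rfl
  exact ⟨hBne, K', h1, h3, h4⟩

theorem rz_sys (hHU : HU M) (hrep : ∀ Q, ZerothHomotopy.mk (rep Q) = Q) {f : M → M}
    (hf : Continuous f) {σ : ZerothHomotopy M → ZerothHomotopy M}
    (hσ : ∀ x, ZerothHomotopy.mk (f x) = σ (ZerothHomotopy.mk x)) :
    Pool.FB57.Sys (Rz rep) σ := by
  classical
  refine ⟨fun B hB => hB.1, ?_, ?_, ?_, ?_⟩
  · rintro B C ⟨-, K, h1, h2, h3⟩ ⟨-, K', h1', h2', h3'⟩ hI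
    refine ⟨by convert hI, K ∩ K', ⟨h1.cpt.inter h1'.cpt, hHU K K' h1.cpt h1.con h1'.cpt
      h1'.con⟩, fun Q hQ => ?_, fun x hx => ?_⟩
    · have h := Finset.mem_inter.1 hQ
      exact ⟨h2 Q h.1, h2' Q h.2⟩
    · exact Finset.mem_inter.2 ⟨h3 x hx.1, h3' x hx.2⟩
  · rintro B C ⟨-, K, h1, h2, h3⟩ ⟨-, K', h1', h2', h3'⟩ ⟨Q, hQ⟩
    have hQ' := Finset.mem_inter.1 hQ
    refine ⟨⟨Q, Finset.mem_union_left _ hQ'.1⟩, K ∪ K', h1.union h1' ⟨rep Q, h2 Q hQ'.1,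
      h2' Q hQ'.2⟩, fun Q' hQ' => ?_, ?_⟩
    · rcases Finset.mem_union.1 hQ' with h | h
      · exact Or.inl (h2 _ h)
      · exact Or.inr (h2' _ h)
    · rintro x (hx | hx)
      · exact Finset.mem_union_left _ (h3 x hx)
      · exact Finset.mem_union_right _ (h3' x hx)
  · rintro B C D ⟨-, K, h1, h2, h3⟩ ⟨-, K', h1', h2', h3'⟩ ⟨-, K'', h1'', h2'', h3''⟩
      ⟨Q, hQ⟩ ⟨Q', hQ'⟩ ⟨Q'', hQ''⟩
    have a := Finset.mem_inter.1 hQ
    have b := Finset.mem_inter.1 hQ'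
    have c := Finset.mem_inter.1 hQ''
    have hU := h1.union h1' ⟨rep Q, h2 Q a.1, h2' Q a.2⟩
    have hcon := hHU _ _ hU.cpt hU.con h1''.cpt h1''.con
    obtain ⟨w, ⟨-, hw1⟩, hw2, hw3⟩ := isPreconnected_closed_iff.1 hcon K K' h1.cpt.isClosed
      h1'.cpt.isClosed (fun x hx => hx.1) ⟨rep Q', ⟨Or.inl (h2 _ b.1), h2'' _ b.2⟩, h2 _ b.1⟩
      ⟨rep Q'', ⟨Or.inr (h2' _ c.1), h2'' _ c.2⟩, h2' _ c.1⟩
    exact ⟨_, Finset.mem_inter.2 ⟨Finset.mem_inter.2 ⟨h3 w hw2, h3' w hw3⟩, h3'' w hw1⟩⟩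
  · rintro B ⟨hne, K, h1, h2, h3⟩
    refine rz_of hHU hrep (K := f '' K) ⟨h1.cpt.image hf, h1.con.image _ hf.continuousOn⟩ ?_ ?_
    · obtain ⟨Q, hQ⟩ := hne
      exact ⟨_, mem_image_of_mem f (h2 Q hQ)⟩
    · intro Q
      rw [Finset.mem_image]
      constructor
      · rintro ⟨Q', hQ', rfl⟩
        refine ⟨_, mem_image_of_mem f (h2 Q' hQ'), ?_⟩
        rw [hσ, hrep]
      · rintro ⟨_, ⟨x, hx, rfl⟩, rfl⟩
        exact ⟨_, h3 x hx, (hσ x).symm⟩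

end Pool.FA57
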