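import Pool.Agent.Work.MP_36677d_fb.FB3

/-! # Chains of path components, part 3: a fixed path component, continued (helper57) -/

set_option autoImplicit false

open Set Filter Topology

namespace Pool.FA57

open Pool.TL94 Pool.RY

variable {M : Type} [MetricSpace M] [CompactSpace M]

/-- two path components cannot be interchanged along a sequence -/
theorem no_swap (hHU : HU M) {f : M → M} (hf : Continuous f)
    {σ : ZerothHomotopy M → ZerothHomotopy M}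
    (hσ : ∀ x, ZerothHomotopy.mk (f x) = σ (ZerothHomotopy.mk x))
    {Q Q₁ : ZerothHomotopy M} (hQ : Q ≠ Q₁) (h1 : σ Q₁ = Q) (h2 : σ Q = Q₁) {W K : Set M}
    (hW : Cont W) (hK : IsClosed K) (hWK : ∀ x ∈ W, x ∉ K → ZerothHomotopy.mk x = Q)
    (hKQ : ∀ x ∈ K, ZerothHomotopy.mk x = Q₁) {q₀ y : M} (hq : q₀ ∈ W)
    (hqQ : ZerothHomotopy.mk q₀ = Q) (hy : y ∈ W) (hyK : y ∈ K) : False := by
  have hyQ := hKQ y hyK
  have hj1 : Joined (f q₀) y := mk_eq_iff.1 (by rw [hσ, hqQ, h2, hyQ])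
  have hj2 : Joined (f y) q₀ := mk_eq_iff.1 (by rw [hσ, hyQ, h1, hqQ])
  have hfW : Cont (f '' W) := ⟨hW.cpt.image hf, hW.con.image _ hf.continuousOn⟩
  have hC1 : Cont (f '' W ∪ seg (f q₀) y) :=
    hfW.union (cont_seg hHU hj1) ⟨f q₀, mem_image_of_mem f hq, left_mem _ _⟩
  have hC : Cont (f '' W ∪ seg (f q₀) y ∪ seg (f y) q₀) :=
    hC1.union (cont_seg hHU hj2) ⟨f y, Or.inl (mem_image_of_mem f hy), left_mem _ _⟩
  have hX := hHU W _ hW.cpt hW.con hC.cpt hC.con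
  have hfK : IsClosed (f '' (W ∩ K)) := ((hW.cpt.inter_right hK).image hf).isClosed
  obtain ⟨x, -, hx1, hx2⟩ := isPreconnected_closed_iff.1 hX K
    (f '' (W ∩ K) ∪ seg (f y) q₀) hK (hfK.union (isClosed_seg _ _)) (by
      rintro x ⟨hxW, (hx | hx) | hx⟩
      · by_cases hxK : x ∈ K
        · exact Or.inl hxK
        · right; left
          obtain ⟨w, hw, rfl⟩ := hx
          refine ⟨w, ⟨hw, ?_⟩, rfl⟩
          by_contra hwK
          have h3 := hWK w hw hwK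
          have h4 := hWK _ hxW hxK
          rw [hσ, h3, h2] at h4
          exact hQ h4.symm
      · left
        by_contra hxK
        have h3 := hWK x hxW hxK
        have h4 := mk_eq_iff.2 (joined_of_mem_seg hHU hj1 hx)
        rw [hσ, hqQ, h2, h3] at h4
        exact hQ h4.symm
      · exact Or.inr (Or.inr hx))
    ⟨y, ⟨hy, Or.inl (Or.inr (right_mem _ _))⟩, hyK⟩
    ⟨q₀, ⟨hq, Or.inr (right_mem _ _)⟩, Or.inr (right_mem _ _)⟩
  have h3 := hKQ x hx1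
  have h4 : ZerothHomotopy.mk x = Q := by
    rcases hx2 with ⟨w, ⟨-, hw⟩, rfl⟩ | hx2
    · rw [hσ, hKQ w hw, h1]
    · rw [← mk_eq_iff.2 (joined_of_mem_seg hHU hj2 hx2), hσ, hyQ, h1]
  exact hQ (h4.symm.trans h3)

/-- a permutation of finitely many path components which is induced by a continuous map has a
fixed point -/
theorem perm (hHU : HU M) {f : M → M} (hf : Continuous f)
    {σ : ZerothHomotopy M → ZerothHomotopy M}
    (hσ : ∀ x, ZerothHomotopy.mk (f x) = σ (ZerothHomotopy.mk x)) {L : Set M} (hL : Cont L)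
    (hne : L.Nonempty) (hfin : Fpc L)
    (hinv : σ '' (ZerothHomotopy.mk '' L) = ZerothHomotopy.mk '' L) :
    ∃ x ∈ L, σ (ZerothHomotopy.mk x) = ZerothHomotopy.mk x := by
  classical
  obtain ⟨rep, hrep⟩ : ∃ rep : ZerothHomotopy M → M, ∀ Q, ZerothHomotopy.mk (rep Q) = Q :=
    ⟨fun Q => (ZerothHomotopy.mk_surjective Q).choose,
      fun Q => (ZerothHomotopy.mk_surjective Q).choose_spec⟩
  have hS := rz_sys hHU hrep hf hσ
  obtain ⟨A, hA⟩ : ∃ A : Finset (ZerothHomotopy M), ∀ Q, Q ∈ A ↔ Q ∈ ZerothHomotopy.mk '' L :=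
    ⟨hfin.toFinset, fun Q => hfin.mem_toFinset⟩
  have hRA : Rz rep A := rz_of hHU hrep hL hne hA
  have hinvA : A.image σ = A := by
    ext Q
    rw [Finset.mem_image, hA, ← hinv]
    constructor
    · rintro ⟨Q', hQ', rfl⟩
      exact ⟨Q', (hA _).1 hQ', rfl⟩
    · rintro ⟨Q', hQ', rfl⟩
      exact ⟨Q', (hA _).2 hQ', rfl⟩
  obtain ⟨A₀, hA₀, hmin⟩ := Finset.exists_min_image
    (A.powerset.filter fun B => Rz rep B ∧ B.image σ = B) Finset.card
    ⟨A, Finset.mem_filter.2 ⟨Finset.mem_powerset.2 subset_rfl, hRA, hinvA⟩⟩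
  obtain ⟨hA₀A, hR₀, hinv₀⟩ := Finset.mem_filter.1 hA₀
  have hA₀A' := Finset.mem_powerset.1 hA₀A
  have hI : Pool.FB57.MinInv (Rz rep) σ A₀ := by
    refine ⟨hR₀, by convert hinv₀, fun B hB hBA hBi => ?_⟩
    have h1 := hmin B (Finset.mem_filter.2 ⟨Finset.mem_powerset.2 (hBA.trans hA₀A'), hB, by
      convert hBi⟩)
    exact Finset.eq_of_subset_of_card_le hBA h1
  by_cases hone : A₀.card = 1
  · obtain ⟨Q, hQ⟩ := Finset.card_eq_one.1 hone
    have hQA : Q ∈ A := hA₀A' (by rw [hQ]; exact Finset.mem_singleton_self _)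
    obtain ⟨x, hx, hxQ⟩ := (hA Q).1 hQA
    refine ⟨x, hx, ?_⟩
    rw [hxQ]
    rw [hQ, Finset.image_singleton] at hinv₀
    exact Finset.singleton_inj.1 hinv₀
  exfalso
  have hpos : 0 < A₀.card := Finset.card_pos.2 hR₀.1
  obtain ⟨Qa, hQa, Qb, hQb, hab⟩ := Finset.one_lt_card.1 (show 1 < A₀.card by omega)
  -- the continua which meet exactly the path components in `A₀`
  obtain ⟨P, hP⟩ : ∃ P : Set M → Prop, ∀ K, P K ↔ ∀ Q, Q ∈ A₀ ↔ Q ∈ ZerothHomotopy.mk '' K :=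
    ⟨_, fun K => Iff.rfl⟩
  obtain ⟨K₀, hK₀, hK₀1, hK₀2⟩ := hR₀.2
  have hPK₀ : P K₀ := (hP _).2 fun Q => ⟨fun h => ⟨rep Q, hK₀1 Q h, hrep Q⟩, by
    rintro ⟨x, hx, rfl⟩
    exact hK₀2 x hx⟩
  have hfilt : ∀ C : Set M, (∀ x ∈ C, ZerothHomotopy.mk x ∈ A₀) → ∀ Q,
      Q ∈ A₀.filter (fun Q => Q ∈ ZerothHomotopy.mk '' C) ↔ Q ∈ ZerothHomotopy.mk '' C := by
    intro C hC Q
    rw [Finset.mem_filter]
    refine ⟨fun h => h.2, fun h => ⟨?_, h⟩⟩
    obtain ⟨x, hx, rfl⟩ := h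
    exact hC x hx
  obtain ⟨K, hK1, hK2, hKc, hKne, hKP⟩ := brouwer (P := P) ⟨hK₀, hPK₀⟩ (by
    intro K hK
    obtain ⟨x, hx, -⟩ := ((hP K).1 hK Qa).1 hQa
    exact ⟨x, hx⟩) (by
    intro K hK hPK
    have hPK' := (hP K).1 hPK
    obtain ⟨xa, hxa, hxa'⟩ := (hPK' Qa).1 hQa
    obtain ⟨xb, hxb, hxb'⟩ := (hPK' Qb).1 hQb
    have hnj : ¬ Joined xa xb := by
      intro h
      apply hab
      rw [← hxa', ← hxb']
      exact mk_eq_iff.2 h
    have hfK : Fpc K := A₀.finite_toSet.subset fun Q hQ => Finset.mem_coe.2 ((hPK' Q).2 hQ)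
    obtain ⟨C₁, C₂, h1, h2, h3, h4, h5, h6, h7⟩ := exists_split hHU hK hfK hxa hxb hnj
    by_cases hP1 : P C₁
    · exact ⟨C₁, h1, hP1, h3, h5⟩
    by_cases hP2 : P C₂
    · exact ⟨C₂, h2, hP2, h4, h6⟩
    exfalso
    have hC₁ne : C₁.Nonempty := by
      obtain ⟨x, hx, hx2⟩ := not_subset.1 h6
      rcases h7 hx with h | h
      · exact ⟨x, h⟩
      · exact absurd h hx2
    have hC₂ne : C₂.Nonempty := by
      obtain ⟨x, hx, hx2⟩ := not_subset.1 h5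
      rcases h7 hx with h | h
      · exact absurd h hx2
      · exact ⟨x, h⟩
    have hm1 : ∀ x ∈ C₁, ZerothHomotopy.mk x ∈ A₀ := fun x hx => (hPK' _).2 ⟨x, h3 hx, rfl⟩
    have hm2 : ∀ x ∈ C₂, ZerothHomotopy.mk x ∈ A₀ := fun x hx => (hPK' _).2 ⟨x, h4 hx, rfl⟩
    have hpr : ∀ C : Set M, (∀ x ∈ C, ZerothHomotopy.mk x ∈ A₀) → ¬ P C →
        A₀.filter (fun Q => Q ∈ ZerothHomotopy.mk '' C) ⊂ A₀ := by
      intro C hC hPC
      refine Finset.ssubset_iff_subset_ne.2 ⟨Finset.filter_subset _ _, fun h => hPC ?_⟩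
      rw [hP]
      intro Q
      rw [← hfilt C hC Q, h]
    obtain ⟨w, hwK, hw1, hw2⟩ := isPreconnected_closed_iff.1 hK.con C₁ C₂ h1.cpt.isClosed
      h2.cpt.isClosed h7 (by
        obtain ⟨x, hx⟩ := hC₁ne
        exact ⟨x, h3 hx, hx⟩) (by
        obtain ⟨x, hx⟩ := hC₂ne
        exact ⟨x, h4 hx, hx⟩)
    refine Pool.FB57.two_proper hS hI (rz_of hHU hrep h1 hC₁ne (hfilt C₁ hm1))
      (rz_of hHU hrep h2 hC₂ne (hfilt C₂ hm2)) (hpr C₁ hm1 hP1) (hpr C₂ hm2 hP2) ?_ ?_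
    · ext Q
      rw [Finset.mem_union, hfilt C₁ hm1, hfilt C₂ hm2, hPK' Q]
      constructor
      · rintro (⟨x, hx, rfl⟩ | ⟨x, hx, rfl⟩)
        · exact ⟨x, h3 hx, rfl⟩
        · exact ⟨x, h4 hx, rfl⟩
      · rintro ⟨x, hx, rfl⟩
        rcases h7 hx with h | h
        · exact Or.inl ⟨x, h, rfl⟩
        · exact Or.inr ⟨x, h, rfl⟩
    · refine ⟨ZerothHomotopy.mk w, ?_⟩
      rw [Finset.mem_inter, hfilt C₁ hm1, hfilt C₂ hm2]
      exact ⟨⟨w, hw1, rfl⟩, ⟨w, hw2, rfl⟩⟩)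
  obtain ⟨Kl, hKl⟩ : ∃ Kl, Kl = ⋂ n, K n := ⟨_, rfl⟩
  rw [← hKl] at hKc hKne hKP
  have hanti : ∀ n m, n ≤ m → K m ⊆ K n := fun n m h => antitone_nat_of_succ_le hK2 h
  have hmn : ∀ n, ∀ x ∈ K n, ZerothHomotopy.mk x ∈ A₀ := fun n x hx =>
    ((hP _).1 (hK1 n).2 _).2 ⟨x, hx, rfl⟩
  have hml : ∀ x ∈ Kl, ZerothHomotopy.mk x ∈ A₀ := fun x hx => by
    rw [hKl] at hx
    exact hmn 0 x (mem_iInter.1 hx 0)
  -- the maximal proper member
  have hRl : Rz rep (A₀.filter fun Q => Q ∈ ZerothHomotopy.mk '' Kl) :=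
    rz_of hHU hrep hKc hKne (hfilt Kl hml)
  have hprl : A₀.filter (fun Q => Q ∈ ZerothHomotopy.mk '' Kl) ⊂ A₀ := by
    refine Finset.ssubset_iff_subset_ne.2 ⟨Finset.filter_subset _ _, fun h => hKP ?_⟩
    rw [hP]
    intro Q
    rw [← hfilt Kl hml Q, h]
  obtain ⟨B, hB, hlB⟩ := Pool.FB57.exists_mx hRl hprl
  obtain ⟨Q, hQA, hQB⟩ := Finset.exists_of_ssubset hB.2.1
  have hBm : ∀ x ∈ Kl, ZerothHomotopy.mk x ∈ B := fun x hx =>
    hlB ((hfilt Kl hml _).2 ⟨x, hx, rfl⟩)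
  -- the sequence
  have hq : ∀ n, ∃ x ∈ K n, ZerothHomotopy.mk x = Q := fun n =>
    ((hP _).1 (hK1 n).2 Q).1 hQA
  choose q hqK hqQ using hq
  have hqj : ∀ n m, Joined (q n) (q m) := fun n m => mk_eq_iff.1 ((hqQ n).trans (hqQ m).symm)
  have hTlK : ∀ n, Tl q n ⊆ K n := fun n =>
    tl_sub (hK1 n).1 fun m hm => hanti n m hm (hqK m)
  have hTc : ∀ n, Cont (Tl q n) := fun n => cont_tl hHU hqj n
  have hTanti : ∀ n m, n ≤ m → Tl q m ⊆ Tl q n := fun n m hnm =>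
    tl_sub (hTc n) fun k hk => mem_tl (hnm.trans hk)
  obtain ⟨y, hy⟩ : (⋂ n, Tl q n).Nonempty := by
    refine IsCompact.nonempty_iInter_of_directed_nonempty_isCompact_isClosed (fun n => Tl q n)
      ?_ (fun n => ⟨q n, mem_tl le_rfl⟩) (fun n => (hTc n).cpt) (fun n => isClosed_closure)
    intro n m
    exact ⟨max n m, hTanti _ _ (le_max_left _ _), hTanti _ _ (le_max_right _ _)⟩
  have hyK : y ∈ Kl := by
    rw [hKl, mem_iInter]
    exact fun n => hTlK n (mem_iInter.1 hy n)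
  have hyW : y ∈ Tl q 0 := mem_iInter.1 hy 0
  have hWK : ∀ x ∈ Tl q 0, x ∉ Kl → ZerothHomotopy.mk x = Q := by
    intro x hx hxK
    rw [hKl, mem_iInter] at hxK
    push Not at hxK
    obtain ⟨n, hn⟩ := hxK
    have hcov : Tl q 0 ⊆ (⋃ k ∈ Finset.range (n + 1), seg (q 0) (q k)) ∪ Tl q n := by
      refine closure_minimal (iUnion_subset ?_) ?_
      · rintro ⟨k, -⟩
        show seg (q 0) (q k) ⊆ _
        by_cases hk : k ≤ n
        · refine Subset.trans ?_ subset_union_left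
          intro w hw
          exact mem_biUnion (show k ∈ (Finset.range (n + 1) : Set ℕ) by
            simpa using Nat.lt_succ_of_le hk) hw
        · have hU := (cont_seg hHU (hqj 0 n)).union (hTc n) ⟨q n, right_mem _ _, mem_tl le_rfl⟩
          refine (seg_sub hU (Or.inl (left_mem _ _)) (Or.inr (mem_tl (by omega)))).trans ?_
          refine union_subset_union_left _ ?_
          intro w hw
          exact mem_biUnion (show n ∈ (Finset.range (n + 1) : Set ℕ) by simp) hw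
      · refine IsClosed.union ?_ isClosed_closure
        exact (Finset.range (n + 1)).finite_toSet.isClosed_biUnion fun k _ => isClosed_seg _ _
    rcases hcov hx with h | h
    · obtain ⟨k, -, hk⟩ := mem_iUnion₂.1 h
      rw [← mk_eq_iff.2 (joined_of_mem_seg hHU (hqj 0 k) hk), hqQ]
    · exact absurd (hTlK n h) hn
  have hmW : ∀ x ∈ Tl q 0, ZerothHomotopy.mk x ∈ A₀ := by
    intro x hx
    by_cases hxK : x ∈ Kl
    · exact hml x hxK
    · rw [hWK x hx hxK]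
      exact hQA
  have hq0W : q 0 ∈ Tl q 0 := mem_tl le_rfl
  have hRW : Rz rep (A₀.filter fun Q => Q ∈ ZerothHomotopy.mk '' Tl q 0) :=
    rz_of hHU hrep (hTc 0) ⟨q 0, hq0W⟩ (hfilt _ hmW)
  have hWA := Pool.FB57.meets_mx hS hI hB hRW (Finset.filter_subset _ _)
    ⟨ZerothHomotopy.mk y, Finset.mem_inter.2 ⟨(hfilt _ hmW _).2 ⟨y, hyW, rfl⟩, hBm y hyK⟩⟩ (by
      intro h
      exact hQB (h ((hfilt _ hmW _).2 ⟨q 0, hq0W, hqQ 0⟩)))
  obtain ⟨Q₁, hQ₁, hσ1, hσ2⟩ := Pool.FB57.swap hS hI hB hQA hQB (by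
    intro Q' hQ' hne'
    rw [← hWA, hfilt _ hmW] at hQ'
    obtain ⟨x, hx, rfl⟩ := hQ'
    by_cases hxK : x ∈ Kl
    · exact hBm x hxK
    · exact absurd (hWK x hx hxK) hne')
  have hKQ : ∀ x ∈ Kl, ZerothHomotopy.mk x = Q₁ := by
    intro x hx
    have h := hBm x hx
    rw [hQ₁] at h
    exact Finset.mem_singleton.1 h
  have hQne : Q ≠ Q₁ := by
    intro h
    apply hQB
    rw [hQ₁, h]
    exact Finset.mem_singleton_self _
  exact no_swap hHU hf hσ hQne hσ1 hσ2 (hTc 0) hKc.cpt.isClosed hWK hKQ hq0W (hqQ 0) hyW hyK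

end Pool.FA57
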