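import Pool.Agent.Work.MP_36677d_fb.FB1

/-! # Chains of path components, part 4: infinite chains do not exist (helper57) -/

set_option autoImplicit false

open Set Filter Topology

namespace Pool.FA57

open Pool.TL94 Pool.RY

variable {M : Type} [MetricSpace M]

/-- a chain of path components -/
structure Ch (p : ℕ → M) (z : ℕ → ℕ → M) : Prop where
  sq : ∀ a, Sq (p a) (z a)
  zero : ∀ a, z a 0 = p a
  next : ∀ a, p (a + 1) ∈ Lm (z a)
  dis : ∀ a, ∀ q ∈ Lm (z a), ¬ Joined (p a) q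
  fin : ∀ a, Fpc (Tl (z a) 0)

variable [CompactSpace M]

theorem cont_seg_of (hHU : HU M) {a b : M} {K : Set M} (hK : Cont K) (ha : a ∈ K) (hb : b ∈ K) :
    Cont (seg a b) := by
  have h1 : seg a b = ⋂ C : {C : Set M // Cont C ∧ a ∈ C ∧ b ∈ C}, C.1 := by
    ext x
    rw [mem_iInter]
    exact ⟨fun h C => h C.1 C.2.1 C.2.2.1 C.2.2.2, fun h C hC ha hb => h ⟨C, hC, ha, hb⟩⟩
  have : Nonempty {C : Set M // Cont C ∧ a ∈ C ∧ b ∈ C} := ⟨⟨K, hK, ha, hb⟩⟩
  refine ⟨(isClosed_seg a b).isCompact, ?_⟩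
  rw [h1]
  refine conn_dir _ ?_ (fun C => C.2.1.cpt) fun C => C.2.1.con
  rintro ⟨A, hA, hA1, hA2⟩ ⟨B, hB, hB1, hB2⟩
  exact ⟨⟨A ∩ B, ⟨hA.cpt.inter hB.cpt, hHU A B hA.cpt hA.con hB.cpt hB.con⟩, ⟨hA1, hB1⟩,
    ⟨hA2, hB2⟩⟩, inter_subset_left, inter_subset_right⟩

theorem tl_cases (hHU : HU M) {p : M} {z : ℕ → M} (h : Sq p z) {x : M} (hx : x ∈ Tl z 0) :
    Joined p x ∨ x ∈ Lm z := by
  by_cases hL : x ∈ Lm z
  · exact Or.inr hL
  rw [Lm, mem_iInter] at hL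
  push Not at hL
  obtain ⟨n, hn⟩ := hL
  have hU := (cont_seg hHU (h.jj 0 n)).union (h.ct hHU n) ⟨z n, right_mem _ _, mem_tl le_rfl⟩
  have h1 : Tl z 0 ⊆ seg (z 0) (z n) ∪ Tl z n := by
    refine tl_sub hU fun m _ => ?_
    rcases le_total m n with h2 | h2
    · exact Or.inl (h.btw hHU (Nat.zero_le m) h2)
    · exact Or.inr (mem_tl h2)
  rcases h1 hx with h2 | h2
  · exact Or.inl ((h.j 0).trans (joined_of_mem_seg hHU (h.jj 0 n) h2))
  · exact absurd h2 hn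

variable {p : ℕ → M} {z : ℕ → ℕ → M}

theorem Ch.mem_tl0 (h : Ch p z) (a : ℕ) : p a ∈ Tl (z a) 0 := by
  rw [← h.zero a]
  exact mem_tl le_rfl

theorem Ch.path (hHU : HU M) (h : Ch p z) (i n : ℕ) : ∃ K, Cont K ∧ p i ∈ K ∧ p (i + n) ∈ K ∧
    Fpc K ∧ ∀ x ∈ K, x = p i ∨ ∃ a, i ≤ a ∧ a < i + n ∧ x ∈ Tl (z a) 0 := by
  induction n with
  | zero =>
    refine ⟨{p i}, cont_singleton _, rfl, rfl, ?_, fun x hx => Or.inl hx⟩
    rw [Fpc, image_singleton]
    exact finite_singleton _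
  | succ n ih =>
    obtain ⟨K, h1, h2, h3, h4, h5⟩ := ih
    refine ⟨K ∪ Tl (z (i + n)) 0, h1.union ((h.sq _).ct hHU 0) ⟨p (i + n), h3, h.mem_tl0 _⟩,
      Or.inl h2, Or.inr (lm_sub 0 (h.next (i + n))), h4.union (h.fin _), ?_⟩
    rintro x (hx | hx)
    · rcases h5 x hx with h6 | ⟨a, h6, h7, h8⟩
      · exact Or.inl h6
      · exact Or.inr ⟨a, h6, by omega, h8⟩
    · exact Or.inr ⟨i + n, by omega, by omega, hx⟩

/-- the limit sets do not meet earlier path components -/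
theorem Ch.nb (hHU : HU M) (h : Ch p z) : ∀ n i, ∀ q ∈ Lm (z (i + n)), ¬ Joined (p i) q := by
  intro n
  induction n using Nat.strong_induction_on with
  | _ n ih =>
    intro i q hq hpq
    rcases Nat.eq_zero_or_pos n with h0 | hpos
    · subst h0
      exact h.dis i q hq hpq
    obtain ⟨l, hl⟩ : ∃ l, l = i + n := ⟨_, rfl⟩
    rw [← hl] at hq
    have hPl : ∀ a, i ≤ a → a < l → ¬ Joined (p a) (p l) := by
      intro a hia hal
      have h1 := h.next (l - 1)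
      rw [show l - 1 + 1 = l by omega] at h1
      refine ih (l - 1 - a) (by omega) a (p l) ?_
      rw [show a + (l - 1 - a) = l - 1 by omega]
      exact h1
    obtain ⟨D, hD, hD1, hD2, -, hD3⟩ := h.path hHU i n
    rw [← hl] at hD2 hD3
    have hsegc : Cont (seg q (p i)) := cont_seg hHU hpq.symm
    have hE : Cont (Tl (z l) 0 ∪ seg q (p i)) :=
      ((h.sq l).ct hHU 0).union hsegc ⟨q, lm_sub 0 hq, left_mem _ _⟩
    have hDE : Cont (D ∩ (Tl (z l) 0 ∪ seg q (p i))) :=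
      ⟨hD.cpt.inter hE.cpt, hHU _ _ hD.cpt hD.con hE.cpt hE.con⟩
    have hC := hDE.union hsegc ⟨p i, ⟨hD1, Or.inr (right_mem _ _)⟩, right_mem _ _⟩
    obtain ⟨l₀, hl₀⟩ := (h.sq l).irr hHU (h.dis l) hC (q := p l)
      (Or.inl ⟨hD2, Or.inl (h.mem_tl0 l)⟩) (Joined.refl _) ⟨q, Or.inr (left_mem _ _), hq⟩
    have hkey : ∀ k, l₀ ≤ k → ∃ a, i ≤ a ∧ a < l ∧ z l k ∈ Lm (z a) := by
      intro k hk
      rcases hl₀ k hk with h1 | h1
      · rcases hD3 _ h1.1 with h2 | ⟨a, h2, h3, h4⟩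
        · exfalso
          refine hPl i le_rfl (by omega) ?_
          rw [← h2]
          exact ((h.sq l).j k).symm
        · rcases tl_cases hHU (h.sq a) h4 with h5 | h5
          · exact absurd (h5.trans ((h.sq l).j k).symm) (hPl a h2 h3)
          · exact ⟨a, h2, h3, h5⟩
      · exfalso
        have h2 := joined_of_mem_seg hHU hpq.symm h1
        exact hPl i le_rfl (by omega) ((hpq.trans h2).trans ((h.sq l).j k).symm)
    obtain ⟨a, ha1, ha2, ha3⟩ : ∃ a, i ≤ a ∧ a < l ∧ ¬ Ev (z l) (Lm (z a)) := by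
      by_contra hcon
      push Not at hcon
      have h1 : ∀ᶠ k in atTop, ∀ a ∈ Finset.Ico i l, z l k ∉ Lm (z a) := by
        rw [Filter.eventually_all_finset]
        intro a ha
        rw [Finset.mem_Ico] at ha
        obtain ⟨m, hm⟩ := hcon a ha.1 ha.2
        exact eventually_atTop.2 ⟨m, hm⟩
      obtain ⟨m, hm⟩ := eventually_atTop.1 h1
      obtain ⟨a, h2, h3, h4⟩ := hkey (max m l₀) (le_max_right _ _)
      exact hm _ (le_max_left _ _) a (Finset.mem_Ico.2 ⟨h2, h3⟩) h4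
    obtain ⟨l₁, hl₁⟩ := (h.sq l).tail hHU ((h.sq a).lm_cont hHU) ha3
    have h1 := hl₁ (lm_sub l₁ hq)
    refine ih (a - i) (by omega) i q ?_ hpq
    rw [show i + (a - i) = a by omega]
    exact h1

theorem Ch.distinct (hHU : HU M) (h : Ch p z) {i j : ℕ} (hij : i < j) :
    ¬ Joined (p i) (p j) := by
  have h1 := h.next (j - 1)
  rw [show j - 1 + 1 = j by omega] at h1
  refine h.nb hHU (j - 1 - i) i (p j) ?_
  rw [show i + (j - 1 - i) = j - 1 by omega]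
  exact h1

theorem Ch.notin (hHU : HU M) (h : Ch p z) {i a : ℕ} (hia : i < a) {x : M}
    (hx : x ∈ Tl (z a) 0) : ¬ Joined (p i) x := by
  intro hj
  rcases tl_cases hHU (h.sq a) hx with h1 | h1
  · exact h.distinct hHU hia (hj.trans h1.symm)
  · refine h.nb hHU (a - i) i x ?_ hj
    rw [show i + (a - i) = a by omega]
    exact h1

/-- a continuum which meets two path components of the chain contains a tail of the first -/
theorem Ch.tail (hHU : HU M) (h : Ch p z) {i j : ℕ} (hij : i < j) {C : Set M} (hC : Cont C)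
    {x y : M} (hx : x ∈ C) (hpx : Joined (p i) x) (hy : y ∈ C) (hpy : Joined (p j) y) :
    ∃ l₀, ∀ l, l₀ ≤ l → z i l ∈ C := by
  obtain ⟨D, hD, hD1, hD2, -, hD3⟩ := h.path hHU (i + 1) (j - (i + 1))
  rw [show i + 1 + (j - (i + 1)) = j by omega] at hD2 hD3
  have hE := hD.union (cont_seg hHU hpy) ⟨p j, hD2, left_mem _ _⟩
  have hU := hC.union hE ⟨y, hy, Or.inr (right_mem _ _)⟩
  obtain ⟨l₀, hl₀⟩ := (h.sq i).irr hHU (h.dis i) hU (Or.inl hx) hpx
    ⟨p (i + 1), Or.inr (Or.inl hD1), h.next i⟩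
  refine ⟨l₀, fun l hl => ?_⟩
  have hj := (h.sq i).j l
  rcases hl₀ l hl with h1 | h1 | h1
  · exact h1
  · exfalso
    rcases hD3 _ h1 with h2 | ⟨a, h2, h3, h4⟩
    · rw [h2] at hj
      exact h.distinct hHU (Nat.lt_succ_self i) hj
    · exact h.notin hHU (by omega) h4 hj
  · exfalso
    have h2 := joined_of_mem_seg hHU hpy h1
    exact h.distinct hHU hij (hj.trans h2.symm)

theorem Ch.sub (hHU : HU M) (h : Ch p z) {i m : ℕ} {C : Set M} (hC : Cont C) (hi : p i ∈ C)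
    {y : M} (hy : y ∈ C) (hpy : Joined (p m) y) : ∀ n, i + n < m → Tl (z (i + n)) 0 ⊆ C := by
  have key : ∀ a, p a ∈ C → a < m → Tl (z a) 0 ⊆ C := by
    intro a ha ham
    obtain ⟨l₀, hl₀⟩ := h.tail hHU ham hC ha (Joined.refl _) hy hpy
    refine tl_sub hC fun k _ => ?_
    rcases le_total l₀ k with h1 | h1
    · exact hl₀ k h1
    · refine seg_sub hC ?_ (hl₀ l₀ le_rfl) ((h.sq a).btw hHU (Nat.zero_le k) h1)
      rw [h.zero a]
      exact ha
  intro n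
  induction n with
  | zero => exact fun hm => key i hi hm
  | succ n ih =>
    intro hm
    have h1 := ih (by omega)
    exact key (i + (n + 1)) (h1 (lm_sub 0 (h.next (i + n)))) hm

/-- the closure of the end of the chain -/
def Dn (z : ℕ → ℕ → M) (n : ℕ) : Set M := closure (⋃ k, Tl (z (n + k)) 0)

theorem Ch.sub_dn {n a : ℕ} (hna : n ≤ a) : Tl (z a) 0 ⊆ Dn z n := by
  refine Subset.trans ?_ subset_closure
  refine Subset.trans ?_ (subset_iUnion _ (a - n))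
  show Tl (z a) 0 ⊆ Tl (z (n + (a - n))) 0
  rw [show n + (a - n) = a by omega]

theorem dn_sub {n : ℕ} {C : Set M} (hC : IsClosed C) (h : ∀ a, n ≤ a → Tl (z a) 0 ⊆ C) :
    Dn z n ⊆ C := closure_minimal (iUnion_subset fun k => h _ (by omega)) hC

theorem Ch.cont_dn (hHU : HU M) (h : Ch p z) (n : ℕ) : Cont (Dn z n) := by
  refine ⟨isClosed_closure.isCompact, ?_⟩
  refine IsPreconnected.closure ?_
  refine IsPreconnected.iUnion_of_chain (fun k => ((h.sq _).ct hHU 0).con) fun k => ?_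
  refine ⟨p (n + k + 1), lm_sub 0 (h.next (n + k)), ?_⟩
  exact h.mem_tl0 (n + k + 1)

theorem Ch.use (hHU : HU M) (hF : FinCl M) (h : Ch p z) (i : ℕ) {y : M} (hy : y ∈ Dn z i) :
    ∃ C, Cont C ∧ p i ∈ C ∧ y ∈ C ∧ Fpc C := by
  have hsub : ∀ n, Tl (z (i + n)) 0 ⊆ seg (p i) (p (i + (n + 1))) := by
    intro n x hx C hC hi hn
    exact h.sub hHU hC hi hn (Joined.refl _) n (by omega) hx
  refine hF.use (q := fun n => p (i + n)) (fun n => ?_) (fun n => ?_) (fun n => ?_) ?_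
  · obtain ⟨K, h1, h2, h3, -⟩ := h.path hHU i n
    exact cont_seg_of hHU h1 h2 h3
  · obtain ⟨K, h1, h2, h3, -⟩ := h.path hHU i (n + 1)
    refine seg_sub (cont_seg_of hHU h1 h2 h3) (left_mem _ _) (hsub n ?_)
    exact h.mem_tl0 (i + n)
  · obtain ⟨K, h1, h2, h3, h4, -⟩ := h.path hHU i n
    exact h4.mono (seg_sub h1 h2 h3)
  · refine closure_mono (iUnion_subset fun n => ?_) hy
    exact (hsub n).trans (subset_iUnion (fun n => seg (p i) (p (i + n))) (n + 1))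

theorem Ch.bound (hHU : HU M) (h : Ch p z) {C : Set M} (hC : Fpc C) :
    ∃ n₁, ∀ a, n₁ ≤ a → ∀ x ∈ C, ¬ Joined (p a) x := by
  have hinj : Function.Injective fun a => ZerothHomotopy.mk (p a) := by
    intro a b hab
    rcases lt_trichotomy a b with h1 | h1 | h1
    · exact absurd (mk_eq_iff.1 hab) (h.distinct hHU h1)
    · exact h1
    · exact absurd (mk_eq_iff.1 hab.symm) (h.distinct hHU h1)
  have hfin : ((fun a => ZerothHomotopy.mk (p a)) ⁻¹' (ZerothHomotopy.mk '' C)).Finite :=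
    Set.Finite.preimage hinj.injOn hC
  obtain ⟨n, hn⟩ := hfin.bddAbove
  refine ⟨n + 1, fun a ha x hx hj => ?_⟩
  have h1 : a ≤ n := hn ⟨x, hx, (mk_eq_iff.2 hj).symm⟩
  omega

theorem Ch.false (hHU : HU M) (hF : FinCl M) (h : Ch p z) : False := by
  have hanti : ∀ n m, n ≤ m → Dn z m ⊆ Dn z n := fun n m hnm =>
    dn_sub isClosed_closure fun a ha => Ch.sub_dn (hnm.trans ha)
  have hpD : ∀ n a, n ≤ a → p a ∈ Dn z n := fun n a hna => Ch.sub_dn hna (h.mem_tl0 a)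
  obtain ⟨y, hy⟩ : (⋂ n, Dn z n).Nonempty := by
    refine IsCompact.nonempty_iInter_of_directed_nonempty_isCompact_isClosed (fun n => Dn z n)
      ?_ (fun n => ⟨p n, hpD n n le_rfl⟩) (fun n => (h.cont_dn hHU n).cpt)
      (fun n => isClosed_closure)
    intro n m
    exact ⟨max n m, hanti _ _ (le_max_left _ _), hanti _ _ (le_max_right _ _)⟩
  rw [mem_iInter] at hy
  obtain ⟨C, hC, hC1, hC2, hCf⟩ := h.use hHU hF 0 (hy 0)
  obtain ⟨n₁, hn₁⟩ := h.bound hHU hCf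
  -- the end of the chain runs in its limit
  have hT : ∀ a, n₁ ≤ a → ∀ m, Tl (z a) 0 ⊆ Dn z m := by
    intro a ha m
    rcases le_or_gt m a with hma | hma
    · exact Ch.sub_dn hma
    have hU := hC.union (h.cont_dn hHU m) ⟨y, hC2, hy m⟩
    have h1 := h.sub hHU hU (i := 0) (Or.inl hC1) (Or.inr (hpD m m le_rfl)) (Joined.refl _) a
      (by omega)
    rw [Nat.zero_add] at h1
    refine tl_sub (h.cont_dn hHU m) fun k _ => ?_
    rcases h1 (mem_tl (Nat.zero_le k)) with h2 | h2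
    · exact absurd ((h.sq a).j k) (hn₁ a ha _ h2)
    · exact h2
  have hTD : ∀ m, Dn z n₁ ⊆ Dn z m := fun m => dn_sub isClosed_closure fun a ha => hT a ha m
  have hTc := h.cont_dn hHU n₁
  obtain ⟨y', hy', hyT⟩ := baire_seg hHU hTc ⟨p n₁, hpD _ _ le_rfl⟩ (by
    intro D hD hDT V hV hVT hVD
    have h1 : ∀ m, n₁ ≤ m → ∃ a, m ≤ a ∧ ∃ w ∈ D, Joined (p a) w := by
      intro m hm
      obtain ⟨x, hxV, hxT⟩ := hVT
      obtain ⟨x', hxV', hx'⟩ := mem_closure_iff.1 (hTD m hxT) V hV hxV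
      obtain ⟨k, hk⟩ := mem_iUnion.1 hx'
      obtain ⟨w, hwV, hw⟩ := mem_closure_iff.1 hk V hV hxV'
      obtain ⟨⟨j, hj⟩, hwj⟩ := mem_iUnion.1 hw
      have hwT : w ∈ Tl (z (m + k)) 0 := seg_sub_tl hj hwj
      refine ⟨m + k, by omega, w, hVD ⟨hwV, Ch.sub_dn (by omega) hwT⟩, ?_⟩
      exact ((h.sq _).j 0).trans (joined_of_mem_seg hHU ((h.sq _).jj 0 j) hwj)
    obtain ⟨a₀, ha₀, w₀, hw₀, hj₀⟩ := h1 n₁ le_rfl
    have h2 : p (a₀ + 1) ∈ D := by
      obtain ⟨a', ha', w', hw', hj'⟩ := h1 (a₀ + 1) (by omega)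
      obtain ⟨l₀, hl₀⟩ := h.tail hHU (show a₀ < a' by omega) hD hw₀ hj₀ hw' hj'
      exact tl_sub hD hl₀ (lm_sub l₀ (h.next a₀))
    have h3 : ∀ a, a₀ + 1 ≤ a → Tl (z a) 0 ⊆ D := by
      intro a ha
      obtain ⟨a', ha', w', hw', hj'⟩ := h1 (a + 1) (by omega)
      have h4 := h.sub hHU hD h2 hw' hj' (a - (a₀ + 1)) (by omega)
      rwa [show a₀ + 1 + (a - (a₀ + 1)) = a by omega] at h4
    exact (hTD (a₀ + 1)).trans (dn_sub hD.cpt.isClosed h3)) (fun _ => p n₁)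
    fun _ => hpD _ _ le_rfl
  obtain ⟨C', hC', hC1', hC2', hCf'⟩ := h.use hHU hF n₁ hy'
  have hTC : Dn z n₁ ⊆ C' := (hyT 0).trans (seg_sub hC' hC1' hC2')
  obtain ⟨n₂, hn₂⟩ := h.bound hHU hCf'
  exact hn₂ (max n₁ n₂) (le_max_right _ _) _ (hTC (hpD _ _ (le_max_left _ _))) (Joined.refl _)

end Pool.FA57
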