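import Pool.Agent.Work.MP_36677d_fa.FA3
import Pool.Agent.Work.MP_36677d_fb.FB4
import Pool.Agent.Work.MP_36677d_fb.FB5

/-! # Chains of path components, part 5: the theorem (helper57) -/

set_option autoImplicit false

open Set Filter Topology

namespace Pool.FA57

open Pool.TL94 Pool.RY

variable {M : Type} [MetricSpace M]

theorem chain_step [CompactSpace M] (hHU : HU M) (hF : FinCl M) {H : M → ℝ → M}
    {v : M → ℝ → ℝ} {e δ : ℝ} {N : ℕ} (D : Dat H v e δ N) (p : M) (hp : Joined p (H p 0)) :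
    ∃ z : ℕ → M, Sq p z ∧ z 0 = p ∧ (∀ q ∈ Lm z, ¬ Joined p q) ∧ Fpc (Tl z 0) ∧
      ∃ p' ∈ Lm z, Joined p' (H p' 0) := by
  have cH := D.cH
  have hPH := joined_H cH hp
  obtain ⟨z', hz1, hz2, hz3, hz4⟩ := p_RAYQ M H v e δ N D hHU p hPH
  obtain ⟨r, hr⟩ := p_RPAR M H v e N hHU p z' hz1 hz2 hz3 hz4
  have hsq := ray_sq hHU hr
  have hdis : ∀ q ∈ Lm (fun n : ℕ => r n), ¬ Joined p q := fun q hq h =>
    hsq.disjF hHU hF hq h
  have hpar : ∀ n : ℕ, ∃ t ∈ Icc (0:ℝ) 1, r n ∈ seg p (H (r n) t) := by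
    intro n
    obtain ⟨t, ht, hb, -⟩ := (p_FLB M H v e δ N D (r n)).2.2.2
      (fun t => H (r n) t ∈ Bey p (r n)) (hr.par1 n (Nat.cast_nonneg n))
    exact ⟨t, ht, hb⟩
  have hLH : ∀ y ∈ Lm (fun n : ℕ => r n), ∃ x ∈ Lm (fun n : ℕ => r n),
      ∃ t ∈ Icc (0:ℝ) 1, H x t = y := fun y hy => hsq.sub_image hHU cH hPH hpar hy
  obtain ⟨z, hz⟩ : ∃ z : ℕ → M, z = fun n : ℕ => r n := ⟨_, rfl⟩
  rw [← hz] at hsq hdis hLH
  have hz0 : z 0 = p := by
    rw [hz]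
    show r ((0 : ℕ) : ℝ) = p
    rw [Nat.cast_zero, hr.zero]
  have hLc := hsq.lm_cont hHU
  obtain ⟨y, hy⟩ := hsq.lm_nonempty hHU
  -- the limit set meets finitely many path components
  have hLf : Fpc (Lm z) := by
    obtain ⟨C, hC, hC1, hC2, hCf⟩ := hF.use (p := z 0) (q := z) (y := y)
      (fun n => cont_seg hHU (hsq.jj _ _))
      (fun n => seg_sub (cont_seg hHU (hsq.jj _ _)) (left_mem _ _)
        (hsq.btw hHU (Nat.zero_le n) (Nat.le_succ n)))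
      (fun n => fpc_seg hHU (hsq.jj _ _)) (by
        refine closure_mono ?_ (lm_sub 0 hy)
        refine iUnion_subset ?_
        rintro ⟨m, -⟩
        exact subset_iUnion (fun m => seg (z 0) (z m)) m)
    obtain ⟨l₀, hl₀⟩ := hsq.irr hHU hdis hC hC1 (hsq.j 0) ⟨y, hC2, hy⟩
    exact hCf.mono ((lm_sub l₀).trans (tl_sub hC hl₀))
  have hTf : Fpc (Tl z 0) := by
    refine ((finite_singleton (ZerothHomotopy.mk p)).union hLf).subset ?_
    rintro _ ⟨x, hx, rfl⟩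
    rcases tl_cases hHU hsq hx with h | h
    · exact Or.inl (mk_eq_iff.2 h).symm
    · exact Or.inr ⟨x, h, rfl⟩
  refine ⟨z, hsq, hz0, hdis, hTf, ?_⟩
  -- the induced map of the path components
  have hHt : ∀ x : M, ∀ t ∈ Icc (0:ℝ) 1, Joined (H x 0) (H x t) := by
    intro x t ht
    have hc : Continuous (fun t => H x t) := cH.comp (continuous_const.prodMk continuous_id)
    exact RDD_joined_img (convex_Icc (0 : ℝ) 1) (f := fun t => H x t) hc.continuousOn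
      ⟨le_rfl, zero_le_one⟩ ht
  have hc0 : Continuous (fun x => H x 0) := cH.comp (continuous_id.prodMk continuous_const)
  obtain ⟨σ, hσ⟩ : ∃ σ : ZerothHomotopy M → ZerothHomotopy M,
      ∀ x, ZerothHomotopy.mk (H x 0) = σ (ZerothHomotopy.mk x) :=
    ⟨Quotient.map (fun x => H x 0) (fun x y hxy => Joined.map hxy hc0), fun x => rfl⟩
  have h1 : ZerothHomotopy.mk '' Lm z ⊆ σ '' (ZerothHomotopy.mk '' Lm z) := by
    rintro _ ⟨w, hw, rfl⟩
    obtain ⟨x, hx, t, ht, hxt⟩ := hLH w hw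
    refine ⟨_, ⟨x, hx, rfl⟩, ?_⟩
    rw [← hσ x, ← hxt]
    exact mk_eq_iff.2 (hHt x t ht)
  have h2 : ZerothHomotopy.mk '' Lm z = σ '' (ZerothHomotopy.mk '' Lm z) :=
    eq_of_subset_of_ncard_le h1 (ncard_image_le hLf) (hLf.image σ)
  obtain ⟨x, hx, hxσ⟩ := perm hHU hc0 hσ hLc ⟨y, hy⟩ hLf h2.symm
  refine ⟨x, hx, mk_eq_iff.1 ?_⟩
  rw [hσ, hxσ]

/-- the theorem on chains of path components -/
theorem mainB [CompactSpace M] [ConnectedSpace M] (hT : TreeLike M)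
    (hmaps : ∀ f : C(M, M), ∃ x, Joined x (f x)) (hF : FinCl M)
    (G : C(M × unitInterval, M × unitInterval)) : ∃ q, G q = q := by
  by_contra hG
  push Not at hG
  have hHU := hT.hu
  obtain ⟨v, e, δ, N, D⟩ := exists_dat G hG
  obtain ⟨p, hp⟩ := hmaps ⟨fun x => (G (x, 0)).1, by fun_prop⟩
  obtain ⟨H, hH⟩ : ∃ H : M → ℝ → M, H = fun x t => (G (x, projIcc 0 1 zero_le_one t)).1 :=
    ⟨_, rfl⟩
  rw [← hH] at D
  have hp0 : Joined p (H p 0) := by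
    rw [hH]
    show Joined p (G (p, projIcc 0 1 zero_le_one 0)).1
    rw [projIcc_left]
    exact hp
  have hstep : ∀ p : {p : M // Joined p (H p 0)}, ∃ (z : ℕ → M)
      (p' : {p : M // Joined p (H p 0)}), Sq p.1 z ∧ z 0 = p.1 ∧
        (∀ q ∈ Lm z, ¬ Joined p.1 q) ∧ Fpc (Tl z 0) ∧ p'.1 ∈ Lm z := by
    intro p
    obtain ⟨z, h1, h2, h3, h4, p', h5, h6⟩ := chain_step hHU hF D p.1 p.2
    exact ⟨z, ⟨p', h6⟩, h1, h2, h3, h4, h5⟩
  choose zz nx h1 h2 h3 h4 h5 using hstep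
  obtain ⟨P, -, hPs⟩ : ∃ P : ℕ → {p : M // Joined p (H p 0)}, P 0 = ⟨p, hp0⟩ ∧
      ∀ n, P (n + 1) = nx (P n) := ⟨fun n => Nat.rec ⟨p, hp0⟩ (fun _ p => nx p) n, rfl,
    fun n => rfl⟩
  have hch : Ch (fun n => (P n).1) (fun n => zz (P n)) := by
    refine ⟨fun a => h1 _, fun a => h2 _, fun a => ?_, fun a => h3 _, fun a => h4 _⟩
    rw [hPs]
    exact h5 _
  exact hch.false hHU hF

end Pool.FA57
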