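import Pool.Agent.Work.MP_36677d_fb.FB6
import Pool.Agent.Work.MP_36677d_gt_h94.Final

/-! # Chains of path components, part 7: bounded rays (helper57)

If in every path component increasing sequences of points are bounded (for instance if the closure
of the union of every increasing sequence of arcs lies in one path component), then a continuum
which meets only finitely many path components lies in one, and the hypothesis of the theorem on
chains of path components holds. -/

set_option autoImplicit false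

open Set Filter Topology

namespace Pool.FA57

open Pool.TL94 Pool.RY

variable {M : Type} [MetricSpace M] [CompactSpace M]

/-- the first point of an arc in a continuum -/
theorem gate (hHU : HU M) {p q : M} (hpq : Joined p q) {K : Set M} (hK : Cont K) (hq : q ∈ K) :
    ∃ e ∈ K, Joined p e ∧ ∀ w ∈ K, Joined p w → e ∈ seg p w := by
  by_cases hpK : p ∈ K
  · exact ⟨p, hpK, Joined.refl p, fun w _ _ => left_mem _ _⟩
  have hne : p ≠ q := fun h => hpK (h ▸ hq)
  obtain ⟨γ, hγ⟩ := exists_arcFn hpq hne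
  have hcl : IsClosed (Icc (0:ℝ) 1 ∩ γ ⁻¹' K) :=
    hγ.cont.preimage_isClosed_of_isClosed isClosed_Icc hK.cpt.isClosed
  obtain ⟨s, hs, hs0, hmin⟩ := exists_min hcl (t := 0) (c0 := 1)
    ⟨⟨zero_le_one, le_rfl⟩, by show γ 1 ∈ K; rw [hγ.one]; exact hq⟩ zero_le_one
  have hspos : 0 < s := by
    rcases hs.1.1.lt_or_eq with h | h
    · exact h
    · exfalso
      apply hpK
      have h1 := hs.2
      rw [mem_preimage, ← h, hγ.zero] at h1
      exact h1
  have hsj : Joined p (γ s) := joined_of_mem_seg hHU hpq (hγ.mem_seg hHU hs.1.1 hs.1.2)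
  refine ⟨γ s, hs.2, hsj, fun w hw hpw => ?_⟩
  have hU := (cont_seg hHU hpw).union hK ⟨w, right_mem _ _, hw⟩
  have h1 : ∀ u, 0 ≤ u → u < s → γ u ∈ seg p w := by
    intro u hu0 hus
    have h2 : γ u ∈ seg p (γ s) :=
      (hγ.mem_iff0 hHU hs.1.1 hs.1.2 hu0 (hus.le.trans hs.1.2)).2 hus.le
    rcases h2 _ hU (Or.inl (left_mem _ _)) (Or.inr hs.2) with h3 | h3
    · exact h3
    · exact absurd (hmin u ⟨⟨hu0, hus.le.trans hs.1.2⟩, h3⟩ hu0) (not_le.2 hus)
  have h4 : IsClosed (Icc (0:ℝ) 1 ∩ γ ⁻¹' seg p w) :=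
    hγ.cont.preimage_isClosed_of_isClosed isClosed_Icc (isClosed_seg _ _)
  have h5 : s ∈ closure (Ico (0:ℝ) s) := by
    rw [closure_Ico hspos.ne]
    exact ⟨hspos.le, le_rfl⟩
  have h6 : Ico (0:ℝ) s ⊆ Icc (0:ℝ) 1 ∩ γ ⁻¹' seg p w := fun u hu =>
    ⟨⟨hu.1, hu.2.le.trans hs.1.2⟩, h1 u hu.1 hu.2⟩
  exact (closure_minimal h6 h4 h5).2

/-- a continuum which meets only finitely many path components lies in one of them -/
theorem one_comp (hHU : HU M) (hB : ∀ p : M, Bdd p (Joined p)) : ∀ (n : ℕ) (K : Set M), Cont K →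
    Fpc K → (ZerothHomotopy.mk '' K).ncard ≤ n → ∀ x ∈ K, ∀ y ∈ K, Joined x y := by
  intro n
  induction n with
  | zero =>
    intro K _ hf hn x hx
    have h1 : (ZerothHomotopy.mk '' K).ncard = 0 := by omega
    rw [Set.ncard_eq_zero hf] at h1
    have h2 : ZerothHomotopy.mk x ∈ ZerothHomotopy.mk '' K := ⟨x, hx, rfl⟩
    rw [h1] at h2
    exact absurd h2 (Set.notMem_empty _)
  | succ n ih =>
    intro K hK hf hn x hx y hy
    by_contra hxy
    have hlt : ∀ C : Set M, ZerothHomotopy.mk '' C ⊆ ZerothHomotopy.mk '' K →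
        ZerothHomotopy.mk '' C ≠ ZerothHomotopy.mk '' K →
        (ZerothHomotopy.mk '' C).ncard ≤ n := by
      intro C h1 h2
      have := Set.ncard_lt_ncard (h1.ssubset_of_ne h2) hf
      omega
    obtain ⟨Kn, hK1, hK2, hKc, hKne, hKP⟩ := brouwer
      (P := fun C => ZerothHomotopy.mk '' C = ZerothHomotopy.mk '' K) ⟨hK, rfl⟩ (by
        intro C hC
        have h1 : ZerothHomotopy.mk x ∈ ZerothHomotopy.mk '' C := by
          rw [hC]
          exact ⟨x, hx, rfl⟩
        obtain ⟨w, hw, -⟩ := h1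
        exact ⟨w, hw⟩) (by
        intro C hC hPC
        obtain ⟨xa, hxa, hxa'⟩ : ZerothHomotopy.mk x ∈ ZerothHomotopy.mk '' C := by
          rw [hPC]
          exact ⟨x, hx, rfl⟩
        obtain ⟨xb, hxb, hxb'⟩ : ZerothHomotopy.mk y ∈ ZerothHomotopy.mk '' C := by
          rw [hPC]
          exact ⟨y, hy, rfl⟩
        have hnj : ¬ Joined xa xb := fun h => hxy (mk_eq_iff.1 (by
          rw [← hxa', ← hxb']
          exact mk_eq_iff.2 h))
        obtain ⟨C₁, C₂, h1, h2, h3, h4, h5, h6, h7⟩ := exists_split hHU hC (by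
          rw [Fpc, hPC]
          exact hf) hxa hxb hnj
        by_cases hP1 : ZerothHomotopy.mk '' C₁ = ZerothHomotopy.mk '' K
        · exact ⟨C₁, h1, hP1, h3, h5⟩
        by_cases hP2 : ZerothHomotopy.mk '' C₂ = ZerothHomotopy.mk '' K
        · exact ⟨C₂, h2, hP2, h4, h6⟩
        exfalso
        have hs1 : ZerothHomotopy.mk '' C₁ ⊆ ZerothHomotopy.mk '' K := by
          rw [← hPC]
          exact image_mono h3
        have hs2 : ZerothHomotopy.mk '' C₂ ⊆ ZerothHomotopy.mk '' K := by
          rw [← hPC]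
          exact image_mono h4
        have hj1 := ih C₁ h1 (hf.subset hs1) (hlt C₁ hs1 hP1)
        have hj2 := ih C₂ h2 (hf.subset hs2) (hlt C₂ hs2 hP2)
        obtain ⟨w, hwK, hw1, hw2⟩ := isPreconnected_closed_iff.1 hC.con C₁ C₂ h1.cpt.isClosed
          h2.cpt.isClosed h7 (by
            obtain ⟨z, hz, hz2⟩ := not_subset.1 h6
            rcases h7 hz with h | h
            · exact ⟨z, hz, h⟩
            · exact absurd h hz2) (by
            obtain ⟨z, hz, hz2⟩ := not_subset.1 h5
            rcases h7 hz with h | h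
            · exact absurd h hz2
            · exact ⟨z, hz, h⟩)
        have hall : ∀ z ∈ C, Joined z w := by
          intro z hz
          rcases h7 hz with h | h
          · exact hj1 z h w hw1
          · exact hj2 z h w hw2
        exact hnj ((hall xa hxa).trans (hall xb hxb).symm))
    have hsl : ZerothHomotopy.mk '' (⋂ n, Kn n) ⊆ ZerothHomotopy.mk '' K := by
      have h1 : ZerothHomotopy.mk '' (Kn 0) = ZerothHomotopy.mk '' K := (hK1 0).2
      rw [← h1]
      exact image_mono (iInter_subset _ 0)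
    obtain ⟨Q, hQ, hQn⟩ : ∃ Q ∈ ZerothHomotopy.mk '' K, Q ∉ ZerothHomotopy.mk '' ⋂ n, Kn n := by
      by_contra h
      push Not at h
      exact hKP (Subset.antisymm hsl h)
    have hq : ∀ n, ∃ x ∈ Kn n, ZerothHomotopy.mk x = Q := fun n => by
      have h1 : ZerothHomotopy.mk '' (Kn n) = ZerothHomotopy.mk '' K := (hK1 n).2
      rw [← h1] at hQ
      exact hQ
    choose q hqK hqQ using hq
    have hqj : ∀ n m, Joined (q n) (q m) := fun n m =>
      mk_eq_iff.1 ((hqQ n).trans (hqQ m).symm)
    have hg := fun n => gate hHU (hqj 0 n) (hK1 n).1 (hqK n)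
    choose e he hej hew using hg
    obtain ⟨w, hw, hwe⟩ := hB (q 0) e hej (fun n =>
      hew n (e (n + 1)) (hK2 n (he (n + 1))) (hej (n + 1)))
    obtain ⟨z, hz⟩ : (⋂ n, Kn n ∩ seg (q 0) w).Nonempty := by
      refine IsCompact.nonempty_iInter_of_sequence_nonempty_isCompact_isClosed
        (fun n => Kn n ∩ seg (q 0) w) (fun n => inter_subset_inter_left _ (hK2 n))
        (fun n => ⟨e n, he n, hwe n⟩) ((hK1 0).1.cpt.inter_right (isClosed_seg _ _))
        (fun n => (hK1 n).1.cpt.isClosed.inter (isClosed_seg _ _))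
    have hz' := mem_iInter.1 hz
    refine hQn ⟨z, mem_iInter.2 fun n => (hz' n).1, ?_⟩
    rw [← hqQ 0]
    exact (mk_eq_iff.2 (joined_of_mem_seg hHU hw (hz' 0).2)).symm

theorem finCl_of_bdd (hHU : HU M) (hB : ∀ p : M, Bdd p (Joined p)) : FinCl M := by
  intro p I q hcl hcon hmono hpq hirr hfin y hy
  have hI : ∀ n, Cont (I n) := fun n => ⟨(hcl n).isCompact, hcon n⟩
  have hj : ∀ n, Joined p (q n) := fun n =>
    one_comp hHU hB _ (I n) (hI n) (hfin n) le_rfl p (hpq n).1 (q n) (hpq n).2
  have hs : ∀ n, seg p (q n) = I n := fun n =>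
    hirr n _ (seg_sub (hI n) (hpq n).1 (hpq n).2) (isClosed_seg _ _)
      (cont_seg hHU (hj n)).con (left_mem _ _) (right_mem _ _)
  obtain ⟨w, hw, hwq⟩ := hB p q hj (fun n => by
    rw [hs (n + 1)]
    exact hmono n (hpq n).2)
  refine ⟨seg p w, isClosed_seg _ _, (cont_seg hHU hw).con, left_mem _ _, ?_, fpc_seg hHU hw⟩
  refine closure_minimal (iUnion_subset fun n => ?_) (isClosed_seg _ _) hy
  rw [← hs n]
  exact seg_mono (hwq n)

/-- if the closure of the union of every increasing sequence of arcs lies in one path component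
then the hypothesis of the theorem on chains of path components holds -/
theorem finCl_of_arcs (hT : TreeLike M)
    (hR : ∀ A : ℕ → Set M, (∀ n, ∃ f : C(unitInterval, M), Function.Injective f ∧ range f = A n) →
      Monotone A → ∀ x ∈ closure (⋃ n, A n), ∀ y ∈ A 0, Joined x y) : FinCl M :=
  finCl_of_bdd hT.hu fun p => bdd_of_arcs hT.hu hR p

end Pool.FA57
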